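import Pool.Agent.Work.MP_7792ce_al.Defs

/-!
Counting two-sided transversals.
-/

open Function

namespace Pool.Agent.Work.MP_7792ce_al

theorem count_abstract {α L R D : Type*} [Fintype α] [Fintype L] [Fintype R] [Fintype D]
    [DecidableEq α] [DecidableEq L] [DecidableEq R] [DecidableEq D]
    (lam : α → L) (rho : α → R) (dL : L → D) (dR : R → D) (w : D → ℕ)
    (hw : ∀ l r, Fintype.card {x // lam x = l ∧ rho x = r} = if dL l = dR r then w (dL l) else 0)
    (β : L ≃ R) (hβ : ∀ l, dR (β l) = dL l) :
    Nat.card {τ : L → α // (∀ l, lam (τ l) = l) ∧ Injective (fun l => rho (τ l))} =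
      (∏ l, w (dL l)) * ∏ d, (Fintype.card {l // dL l = d}).factorial := by
  classical
  have e : {τ : L → α // (∀ l, lam (τ l) = l) ∧ Injective (fun l => rho (τ l))} ≃
      Σ π : Equiv.Perm L, (∀ l, {x // lam x = l ∧ rho x = β (π l)}) :=
    { toFun := fun τ => ⟨Equiv.ofBijective (fun l => β.symm (rho (τ.1 l)))
          (Finite.injective_iff_bijective.1 (β.symm.injective.comp τ.2.2)),
          fun l => ⟨τ.1 l, τ.2.1 l, by simp⟩⟩
      invFun := fun x => ⟨fun l => (x.2 l).1, fun l => (x.2 l).2.1, fun l l' h => by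
          have h1 := (x.2 l).2.2
          have h2 := (x.2 l').2.2
          simp only at h
          rw [h1, h2] at h
          exact x.1.injective (β.injective h)⟩
      left_inv := fun τ => rfl
      right_inv := fun x => by
        obtain ⟨π, f⟩ := x
        have hπ : (Equiv.ofBijective (fun l => β.symm (rho (f l).1))
            (Finite.injective_iff_bijective.1 (β.symm.injective.comp (fun l l' h => by
              have h1 := (f l).2.2
              have h2 := (f l').2.2
              rw [h1, h2] at h
              exact π.injective (β.injective h))))) = π := by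
          ext l
          simp [(f l).2.2]
        refine Sigma.ext hπ ?_
        simp only
        refine hfunext rfl ?_
        intro a a' ha
        cases ha
        refine (Subtype.heq_iff_coe_eq ?_).2 rfl
        intro x
        simp [(f a).2.2] }
  rw [Nat.card_congr e, Nat.card_eq_fintype_card, Fintype.card_sigma]
  simp only [Fintype.card_pi, hw, hβ]
  rw [← DomMulAct.stabilizer_card dL, Fintype.card_subtype, mul_comm, ← smul_eq_mul,
    ← Finset.sum_const, Finset.sum_filter]
  refine Finset.sum_congr rfl fun π _ => ?_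
  split_ifs with h
  · refine Finset.prod_congr rfl fun l _ => ?_
    rw [if_pos]
    exact (congrFun h l).symm
  · obtain ⟨l, hl⟩ := Function.ne_iff.1 h
    exact Finset.prod_eq_zero (Finset.mem_univ l) (if_neg fun h' => hl h'.symm)

variable {G : Type*} [Group G]

theorem card_twoSided_eq [Finite G] (H : Subgroup G) :
    Nat.card (twoSided H) = Nat.card {τ : G ⧸ H → G // (∀ l, (QuotientGroup.mk (τ l) : G ⧸ H) = l) ∧
      Injective (fun l => (Quotient.mk'' (τ l) : Quotient (QuotientGroup.rightRel H)))} := by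
  symm
  refine Nat.card_congr (Equiv.ofBijective (fun τ => ⟨Set.range τ.1, ?_, ?_⟩) ⟨?_, ?_⟩)
  · rw [Subgroup.isComplement_subgroup_right_iff_existsUnique_quotientGroupMk]
    intro q
    refine ⟨⟨τ.1 q, q, rfl⟩, τ.2.1 q, ?_⟩
    rintro ⟨_, l, rfl⟩ hl
    have : l = q := by rw [← hl]; exact (τ.2.1 l).symm
    subst this
    rfl
  · rw [Subgroup.isComplement_subgroup_left_iff_existsUnique_quotientMk'']
    have hb : Bijective (fun l => (Quotient.mk'' (τ.1 l) : Quotient (QuotientGroup.rightRel H))) :=
      (Nat.bijective_iff_injective_and_card _).2 ⟨τ.2.2,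
        Nat.card_congr (QuotientGroup.quotientRightRelEquivQuotientLeftRel H).symm⟩
    intro q
    obtain ⟨l, hl⟩ := hb.2 q
    refine ⟨⟨τ.1 l, l, rfl⟩, hl, ?_⟩
    rintro ⟨_, l', rfl⟩ hl'
    have : l' = l := hb.1 (hl'.trans hl.symm)
    subst this
    rfl
  · intro τ τ' h
    have h' : Set.range τ.1 = Set.range τ'.1 := congrArg Subtype.val h
    refine Subtype.ext (funext fun l => ?_)
    obtain ⟨l', hl'⟩ : τ.1 l ∈ Set.range τ'.1 := h' ▸ ⟨l, rfl⟩
    have : l' = l := by rw [← τ'.2.1 l', hl', τ.2.1 l]
    rw [← hl', this]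
  · rintro ⟨S, h1, h2⟩
    rw [Subgroup.isComplement_subgroup_right_iff_existsUnique_quotientGroupMk] at h1
    rw [Subgroup.isComplement_subgroup_left_iff_existsUnique_quotientMk''] at h2
    choose f hf hf' using h1
    refine ⟨⟨fun l => f l, hf, fun l l' h => ?_⟩, ?_⟩
    · have := (h2 _).unique h rfl
      rw [← hf l, ← hf l', this]
    · refine Subtype.ext (Set.ext fun x => ⟨?_, fun hx => ?_⟩)
      · rintro ⟨l, rfl⟩
        exact (f l).2
      · exact ⟨QuotientGroup.mk x, congrArg Subtype.val (hf' _ ⟨x, hx⟩ rfl).symm⟩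

/-- The size of the intersection of the left and right cosets of `u`. -/
noncomputable def kap (H : Subgroup G) (u : G) : ℕ := Nat.card {h : G // h ∈ H ∧ u * h * u⁻¹ ∈ H}

theorem card_inter (H : Subgroup G) (u : G) :
    Nat.card {x : G // (QuotientGroup.mk x : G ⧸ H) = QuotientGroup.mk u ∧
      (Quotient.mk'' x : Quotient (QuotientGroup.rightRel H)) = Quotient.mk'' u} = kap H u := by
  refine Nat.card_congr (Equiv.subtypeEquiv (Equiv.mulLeft u⁻¹) fun x => ?_)
  rw [eq_comm, QuotientGroup.eq, eq_comm, Quotient.eq'', QuotientGroup.rightRel_apply]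
  simp

theorem kap_mul (H : Subgroup G) (u a b : G) (ha : a ∈ H) (hb : b ∈ H) :
    kap H (a * u * b) = kap H u := by
  refine Nat.card_congr (Equiv.subtypeEquiv (MulAut.conj b).toEquiv fun x => ?_)
  simp only [MulEquiv.toEquiv_eq_coe, EquivLike.coe_coe, MulAut.conj_apply]
  have e : a * u * b * x * (a * u * b)⁻¹ = a * (u * (b * x * b⁻¹) * u⁻¹) * a⁻¹ := by group
  rw [e, mul_mem_cancel_right (inv_mem ha), mul_mem_cancel_left ha,
    mul_mem_cancel_right (inv_mem hb), mul_mem_cancel_left hb]

theorem kap_pos [Finite G] (H : Subgroup G) (u : G) : 0 < kap H u := by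
  have : Nonempty {h : G // h ∈ H ∧ u * h * u⁻¹ ∈ H} := ⟨⟨1, one_mem _, by simp⟩⟩
  exact Nat.card_pos

/-- The double coset containing a left coset. -/
def dL (H : Subgroup G) : G ⧸ H → DoubleCoset.Quotient (H : Set G) H :=
  Quotient.lift (DoubleCoset.mk H H) fun a b hab => (DoubleCoset.eq H H a b).2
    ⟨1, one_mem _, a⁻¹ * b, QuotientGroup.leftRel_apply.1 hab, by simp⟩

/-- The double coset containing a right coset. -/
def dR (H : Subgroup G) : Quotient (QuotientGroup.rightRel H) → DoubleCoset.Quotient (H : Set G) H :=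
  Quotient.lift (DoubleCoset.mk H H) fun a b hab => (DoubleCoset.eq H H a b).2
    ⟨b * a⁻¹, QuotientGroup.rightRel_apply.1 hab, 1, one_mem _, by simp⟩

/-- The common size of the coset intersections in a double coset. -/
noncomputable def wt (H : Subgroup G) (d : DoubleCoset.Quotient (H : Set G) H) : ℕ := kap H d.out

theorem wt_mk (H : Subgroup G) (u : G) : wt H (DoubleCoset.mk H H u) = kap H u := by
  obtain ⟨a, b, ha, hb, h⟩ := DoubleCoset.mk_out_eq_mul H H u
  rw [wt, h, kap_mul H u a b ha hb]

open Classical in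
theorem card_cell (H : Subgroup G) (l : G ⧸ H) (r : Quotient (QuotientGroup.rightRel H)) :
    Nat.card {x : G // (QuotientGroup.mk x : G ⧸ H) = l ∧
      (Quotient.mk'' x : Quotient (QuotientGroup.rightRel H)) = r} =
      if dL H l = dR H r then wt H (dL H l) else 0 := by
  induction l using QuotientGroup.induction_on with | _ a =>
  induction r using Quotient.inductionOn' with | _ b =>
  split_ifs with h
  · obtain ⟨h1, hh1, h2, hh2, e⟩ := (DoubleCoset.eq H H a b).1 h
    have e1 : (QuotientGroup.mk a : G ⧸ H) = QuotientGroup.mk (a * h2) := by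
      rw [QuotientGroup.eq]; simpa using hh2
    have e2 : (Quotient.mk'' b : Quotient (QuotientGroup.rightRel H)) = Quotient.mk'' (a * h2) := by
      rw [Quotient.eq'', QuotientGroup.rightRel_apply, e]
      simpa [mul_assoc] using hh1
    rw [e1, e2, card_inter]
    exact (wt_mk H _).symm
  · rw [Nat.card_eq_zero]
    left
    constructor
    rintro ⟨x, h1, h2⟩
    apply h
    rw [← h1, ← h2]
    rfl

theorem fiberL_mul [Finite G] (H : Subgroup G) (d : DoubleCoset.Quotient (H : Set G) H) :
    Nat.card {l // dL H l = d} * wt H d = Nat.card H := by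
  classical
  have := Fintype.ofFinite G
  set r : Quotient (QuotientGroup.rightRel H) := Quotient.mk'' d.out with hr
  have hd : dR H r = d := DoubleCoset.out_eq' H H d
  have h1 : Nat.card {x : G // (Quotient.mk'' x : Quotient (QuotientGroup.rightRel H)) = r} =
      Nat.card H := by
    refine Nat.card_congr (Equiv.subtypeEquiv (Equiv.mulRight d.out⁻¹) fun x => ?_)
    rw [hr, eq_comm, Quotient.eq'', QuotientGroup.rightRel_apply]
    simp
  have e : {x : G // (Quotient.mk'' x : Quotient (QuotientGroup.rightRel H)) = r} ≃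
      Σ l : G ⧸ H, {x : G // (QuotientGroup.mk x : G ⧸ H) = l ∧
        (Quotient.mk'' x : Quotient (QuotientGroup.rightRel H)) = r} :=
    { toFun := fun x => ⟨QuotientGroup.mk x.1, x.1, rfl, x.2⟩
      invFun := fun x => ⟨x.2.1, x.2.2.2⟩
      left_inv := fun x => rfl
      right_inv := by rintro ⟨_, x, rfl, hx⟩; rfl }
  rw [← h1, Nat.card_congr e, Nat.card_sigma]
  simp only [card_cell, hd]
  rw [Nat.card_eq_fintype_card, Fintype.card_subtype, ← Finset.sum_filter, ← smul_eq_mul,
    ← Finset.sum_const]
  refine Finset.sum_congr rfl fun l hl => ?_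
  rw [(Finset.mem_filter.1 hl).2]

theorem fiberR_mul [Finite G] (H : Subgroup G) (d : DoubleCoset.Quotient (H : Set G) H) :
    Nat.card {r // dR H r = d} * wt H d = Nat.card H := by
  classical
  have := Fintype.ofFinite G
  set l : G ⧸ H := QuotientGroup.mk d.out with hl
  have hd : dL H l = d := DoubleCoset.out_eq' H H d
  have h1 : Nat.card {x : G // (QuotientGroup.mk x : G ⧸ H) = l} = Nat.card H := by
    refine Nat.card_congr (Equiv.subtypeEquiv (Equiv.mulLeft d.out⁻¹) fun x => ?_)
    rw [hl, eq_comm, QuotientGroup.eq]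
    simp
  have e : {x : G // (QuotientGroup.mk x : G ⧸ H) = l} ≃
      Σ r : Quotient (QuotientGroup.rightRel H), {x : G // (QuotientGroup.mk x : G ⧸ H) = l ∧
        (Quotient.mk'' x : Quotient (QuotientGroup.rightRel H)) = r} :=
    { toFun := fun x => ⟨Quotient.mk'' x.1, x.1, x.2, rfl⟩
      invFun := fun x => ⟨x.2.1, x.2.2.1⟩
      left_inv := fun x => rfl
      right_inv := by rintro ⟨_, x, hx, rfl⟩; rfl }
  have := Fintype.ofFinite (Quotient (QuotientGroup.rightRel H))
  rw [← h1, Nat.card_congr e, Nat.card_sigma]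
  simp only [card_cell, hd]
  rw [Nat.card_eq_fintype_card, Fintype.card_subtype, ← Finset.sum_filter, ← smul_eq_mul,
    ← Finset.sum_const]
  refine Finset.sum_congr ?_ fun l _ => rfl
  ext r
  simp [eq_comm]

theorem finite_dc [Finite G] (H : Subgroup G) : Finite (DoubleCoset.Quotient (H : Set G) H) :=
  inferInstanceAs (Finite (Quotient _))

/-- The number of left cosets in a double coset. -/
noncomputable def tt (H : Subgroup G) (d : DoubleCoset.Quotient (H : Set G) H) : ℕ :=
  Nat.card {l // dL H l = d}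

theorem transProb_eq [Finite G] (H : Subgroup G) [Fintype (DoubleCoset.Quotient (H : Set G) H)] :
    transProb H = ∏ d, ((tt H d).factorial : ℝ) / (tt H d : ℝ) ^ (tt H d) := by
  classical
  have := Fintype.ofFinite G
  have := Fintype.ofFinite (Quotient (QuotientGroup.rightRel H))
  have hwt : ∀ d, 0 < wt H d := fun d => kap_pos H _
  have hfib : ∀ d, Nonempty ({l // dL H l = d} ≃ {r // dR H r = d}) := fun d => by
    rw [← Finite.card_eq]
    exact Nat.eq_of_mul_eq_mul_right (hwt d) ((fiberL_mul H d).trans (fiberR_mul H d).symm)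
  let β : G ⧸ H ≃ Quotient (QuotientGroup.rightRel H) :=
    Equiv.ofFiberEquiv fun d => (hfib d).some
  have hβ : ∀ l, dR H (β l) = dL H l := fun l => Equiv.ofFiberEquiv_map _ l
  have key := count_abstract (fun x : G => (QuotientGroup.mk x : G ⧸ H))
    (fun x : G => (Quotient.mk'' x : Quotient (QuotientGroup.rightRel H))) (dL H) (dR H) (wt H)
    (fun l r => by rw [← Nat.card_eq_fintype_card, card_cell]) β hβ
  rw [transProb, card_twoSided_eq, key]
  have h2 : (Nat.card H : ℝ) ^ H.index = ∏ l : G ⧸ H, ((tt H (dL H l) : ℝ) * wt H (dL H l)) := by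
    have : ∀ l : G ⧸ H, ((tt H (dL H l) : ℝ) * wt H (dL H l)) = Nat.card H := fun l => by
      exact_mod_cast fiberL_mul H _
    simp only [this]
    rw [Finset.prod_const, Finset.card_univ, Subgroup.index, Nat.card_eq_fintype_card (α := G ⧸ H)]
  have h3 : ∏ l : G ⧸ H, (tt H (dL H l) : ℝ) = ∏ d, (tt H d : ℝ) ^ (tt H d) := by
    rw [← Finset.prod_fiberwise Finset.univ (dL H)]
    refine Finset.prod_congr rfl fun d _ => ?_
    rw [Finset.prod_congr rfl (g := fun _ => (tt H d : ℝ))
      (fun l hl => by rw [(Finset.mem_filter.1 hl).2]), Finset.prod_const]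
    congr 1
    rw [tt, Nat.card_eq_fintype_card, Fintype.card_subtype]
  rw [h2, Finset.prod_mul_distrib, h3, Finset.prod_div_distrib]
  have h4 : (∏ l : G ⧸ H, (wt H (dL H l) : ℝ)) ≠ 0 :=
    Finset.prod_ne_zero_iff.2 fun l _ => by exact_mod_cast (hwt _).ne'
  push_cast
  rw [mul_comm, mul_div_mul_right _ _ h4]
  simp only [tt, Nat.card_eq_fintype_card]

theorem card_dc [Finite G] (H : Subgroup G) (d : DoubleCoset.Quotient (H : Set G) H) :
    Nat.card {x : G // DoubleCoset.mk H H x = d} = tt H d * Nat.card H := by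
  classical
  have := Fintype.ofFinite G
  have h1 : ∀ l : G ⧸ H, Nat.card {x : G // (QuotientGroup.mk x : G ⧸ H) = l} = Nat.card H := by
    intro l
    induction l using QuotientGroup.induction_on with | _ a =>
    refine Nat.card_congr (Equiv.subtypeEquiv (Equiv.mulLeft a⁻¹) fun x => ?_)
    rw [eq_comm, QuotientGroup.eq]
    simp
  have e : {x : G // DoubleCoset.mk H H x = d} ≃
      Σ l : {l // dL H l = d}, {x : G // (QuotientGroup.mk x : G ⧸ H) = l.1} :=
    { toFun := fun x => ⟨⟨QuotientGroup.mk x.1, x.2⟩, x.1, rfl⟩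
      invFun := fun x => ⟨x.2.1, (congrArg (dL H) x.2.2).trans x.1.2⟩
      left_inv := fun x => rfl
      right_inv := by
        rintro ⟨⟨l, h⟩, x, hx⟩
        obtain rfl : (QuotientGroup.mk x : G ⧸ H) = l := hx
        rfl }
  rw [Nat.card_congr e, Nat.card_sigma]
  simp only [h1]
  rw [Finset.sum_const, Finset.card_univ, smul_eq_mul, tt,
    Nat.card_eq_fintype_card (α := {l // dL H l = d})]

theorem kap_of_mem (H : Subgroup G) {u : G} (hu : u ∈ Subgroup.normalizer (H : Set G)) :
    kap H u = Nat.card H :=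
  Nat.card_congr (Equiv.subtypeEquivRight fun x =>
    ⟨fun h => h.1, fun h => ⟨h, (Subgroup.mem_normalizer_iff.1 hu x).1 h⟩⟩)

/-- The number `p ! / p ^ p`. -/
noncomputable def ff (p : ℕ) : ℝ := (p.factorial : ℝ) / (p : ℝ) ^ p

theorem transProb_special [Finite G] (H : Subgroup G) (p : ℕ)
    (hk : ∀ u, u ∉ Subgroup.normalizer (H : Set G) → p * kap H u = Nat.card H) :
    ∃ s : ℕ, transProb H = ff p ^ s ∧
      Nat.card G = Nat.card (Subgroup.normalizer (H : Set G)) + p * s * Nat.card H := by
  classical
  have := finite_dc H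
  have := Fintype.ofFinite (DoubleCoset.Quotient (H : Set G) H)
  have := Fintype.ofFinite G
  set N := Subgroup.normalizer (H : Set G) with hN
  have hwt : ∀ d, 0 < wt H d := fun d => kap_pos H _
  have h1 : ∀ d : DoubleCoset.Quotient (H : Set G) H, d.out ∈ N → tt H d = 1 := fun d hd => by
    have := fiberL_mul H d
    rw [← kap_of_mem H hd] at this
    exact Nat.eq_of_mul_eq_mul_right (hwt d) (this.trans (one_mul _).symm)
  have h2 : ∀ d : DoubleCoset.Quotient (H : Set G) H, d.out ∉ N → tt H d = p := fun d hd => by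
    have := fiberL_mul H d
    rw [← hk _ hd] at this
    exact Nat.eq_of_mul_eq_mul_right (hwt d) this
  have h3 : ∀ x : G, (DoubleCoset.mk H H x).out ∈ N ↔ x ∈ N := fun x => by
    obtain ⟨a, b, ha, hb, h⟩ := DoubleCoset.mk_out_eq_mul H H x
    rw [h, mul_mem_cancel_right (Subgroup.le_normalizer hb),
      mul_mem_cancel_left (Subgroup.le_normalizer ha)]
  refine ⟨(Finset.univ.filter fun d : DoubleCoset.Quotient (H : Set G) H => d.out ∉ N).card,
    ?_, ?_⟩
  · rw [transProb_eq, ← Finset.prod_const, Finset.prod_filter]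
    refine Finset.prod_congr rfl fun d _ => ?_
    split_ifs with h
    · rw [h1 d h]; simp
    · rw [h2 d h, ff]
  · have e1 : Nat.card G = Nat.card N + (Finset.univ.filter fun x : G => x ∉ N).card := by
      rw [Nat.card_eq_fintype_card, Nat.card_eq_fintype_card, Fintype.card_subtype,
        Finset.card_filter_add_card_filter_not, Finset.card_univ]
    rw [e1]
    congr 1
    rw [Finset.card_eq_sum_card_fiberwise (f := DoubleCoset.mk H H)
      (t := Finset.univ.filter fun d : DoubleCoset.Quotient (H : Set G) H => d.out ∉ N)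
      (fun x hx => by simpa [h3] using hx)]
    rw [mul_comm p, mul_assoc, ← smul_eq_mul, ← Finset.sum_const]
    refine Finset.sum_congr rfl fun d hd => ?_
    have hd' : d.out ∉ N := (Finset.mem_filter.1 hd).2
    rw [← h2 d hd', ← card_dc, Nat.card_eq_fintype_card, Fintype.card_subtype]
    congr 1
    ext x
    simp only [Finset.mem_filter, Finset.mem_univ, true_and]
    exact ⟨fun h => h.2, fun h => ⟨by rw [← h3, h]; exact hd', h⟩⟩

theorem transProb_normal [Finite G] (H : Subgroup G) (hH : H.Normal) : transProb H = 1 := by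
  have hN : Subgroup.normalizer (H : Set G) = ⊤ := Subgroup.normalizer_eq_top H
  obtain ⟨s, h1, h2⟩ := transProb_special H 1 (fun u hu => absurd (hN ▸ Subgroup.mem_top u) hu)
  rw [h1]
  simp [ff]

theorem tp_le [Finite G] (H : Subgroup G) : tp G ≤ transProb H :=
  ciInf_le (Set.finite_range _).bddBelow H

theorem le_tp {c : ℝ} (h : ∀ H : Subgroup G, c ≤ transProb H) : c ≤ tp G :=
  le_ciInf h

/-- The case of a cyclic subgroup of prime power order whose maximal subgroup is normal. -/
theorem transProb_cyclic [Finite G] (h : G) {p a : ℕ} (hp : p.Prime) (ha : orderOf h = p ^ (a + 1))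
    (hn : (Subgroup.zpowers (h ^ p)).Normal) :
    ∃ s : ℕ, transProb (Subgroup.zpowers h) = ff p ^ s ∧
      Nat.card G = Nat.card (Subgroup.normalizer (Subgroup.zpowers h : Set G)) +
        p * s * p ^ (a + 1) := by
  have hc : Nat.card (Subgroup.zpowers h) = p ^ (a + 1) := by rw [Nat.card_zpowers, ha]
  rw [← hc]
  refine transProb_special _ p fun u hu => ?_
  have ho : orderOf (h ^ p) = p ^ a := by
    rw [orderOf_pow_of_dvd hp.ne_zero (by rw [ha]; exact dvd_pow_self p (Nat.succ_ne_zero a)), ha,
      pow_succ, Nat.mul_div_cancel _ hp.pos]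
  have : kap (Subgroup.zpowers h) u = Nat.card (Subgroup.zpowers (h ^ p)) := by
    refine Nat.card_congr (Equiv.subtypeEquivRight fun x => ⟨fun hx => ?_, fun hx => ?_⟩)
    · obtain ⟨hx1, hx2⟩ := hx
      obtain ⟨k, rfl⟩ := (mem_powers_iff_mem_zpowers.2 hx1)
      by_cases hk : p ∣ k
      · obtain ⟨j, rfl⟩ := hk
        simp only [pow_mul]
        exact pow_mem (Subgroup.mem_zpowers _) j
      · exfalso
        apply hu
        have hcop : (orderOf h).Coprime k := by
          rw [ha]
          exact Nat.Coprime.pow_left _ ((Nat.Prime.coprime_iff_not_dvd hp).2 hk)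
        obtain ⟨m, hm⟩ := exists_pow_eq_self_of_coprime hcop.symm
        have h1 : u * h * u⁻¹ ∈ Subgroup.zpowers h := by
          rw [← hm, ← conj_pow, hm]
          exact pow_mem hx2 m
        refine Subgroup.mem_normalizer_fintype ?_
        rintro _ ⟨j, rfl⟩
        simp only [← conj_zpow]
        exact zpow_mem h1 j
    · have hle : Subgroup.zpowers (h ^ p) ≤ Subgroup.zpowers h :=
        Subgroup.zpowers_le_of_mem (pow_mem (Subgroup.mem_zpowers h) p)
      exact ⟨hle hx, hle (hn.conj_mem x hx u)⟩
  rw [this, Nat.card_zpowers, ho, hc, pow_succ, mul_comm]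

end Pool.Agent.Work.MP_7792ce_al
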