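import Mathlib

-- merged part: Pool.Agent.Work.MP_7792ce_al.Comm
section
/-!
Bounds for the commuting probability.
-/

namespace Pool.Agent.Work.MP_7792ce_al

open Subgroup

variable {G : Type*} [Group G]

theorem cp_formula [Fintype G] :
    (commProb G : ℝ) = (∑ x : G, 1 / ((centralizer {x}).index : ℝ)) / Nat.card G := by
  classical
  have e : {p : G × G // Commute p.1 p.2} ≃ Σ x : G, centralizer ({x} : Set G) :=
    { toFun := fun p => ⟨p.1.1, p.1.2, mem_centralizer_singleton_iff.2 p.2.symm.eq⟩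
      invFun := fun p => ⟨(p.1, p.2.1), (mem_centralizer_singleton_iff.1 p.2.2).symm⟩
      left_inv := fun p => rfl
      right_inv := fun p => rfl }
  have h0 : (Nat.card G : ℝ) ≠ 0 := by exact_mod_cast Nat.card_pos.ne'
  rw [commProb_def, Nat.card_congr e, Nat.card_sigma]
  push_cast
  rw [Finset.sum_div, Finset.sum_div]
  refine Finset.sum_congr rfl fun x _ => ?_
  have h1 : (Nat.card (centralizer ({x} : Set G)) : ℝ) * (centralizer ({x} : Set G)).index =
      Nat.card G := by exact_mod_cast card_mul_index _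
  have h2 : ((centralizer ({x} : Set G)).index : ℝ) ≠ 0 := by exact_mod_cast index_ne_zero_of_finite
  rw [div_div, div_eq_div_iff (by positivity) (by positivity), sq, ← mul_assoc, h1, one_mul]

theorem index_centralizer_of_central {x : G} (hx : x ∈ center G) :
    (centralizer ({x} : Set G)).index = 1 := by
  rw [index_eq_one, eq_top_iff]
  intro y _
  exact mem_centralizer_singleton_iff.2 (mem_center_iff.1 hx y)

theorem two_mul_index_le [Finite G] {Z K : Subgroup G} (h : Z ≤ K) (hne : ¬ K ≤ Z) :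
    2 * K.index ≤ Z.index := by
  rw [← relIndex_mul_index h]
  refine Nat.mul_le_mul_right _ ?_
  have h1 : Z.relIndex K ≠ 1 := fun h1 => hne (relIndex_eq_one.1 h1)
  have h0 : Z.relIndex K ≠ 0 := index_ne_zero_of_finite
  omega

theorem le_centralizer_of_le_center {Z : Subgroup G} (hZ : Z ≤ center G) (x : G) :
    Z ≤ centralizer ({x} : Set G) := fun _ hz =>
  mem_centralizer_singleton_iff.2 (mem_center_iff.1 (hZ hz) x).symm

theorem sum_ite_subgroup [Fintype G] (Z : Subgroup G) [DecidablePred (· ∈ Z)] (x0 : G) (c : ℝ) :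
    ∑ x : G, (if x0⁻¹ * x ∈ Z then c else 0) = Nat.card Z * c := by
  classical
  rw [← Finset.sum_filter, Finset.sum_const, nsmul_eq_mul, ← Fintype.card_subtype,
    ← Nat.card_eq_fintype_card]
  congr 2
  exact Nat.card_congr (Equiv.subtypeEquiv (Equiv.mulLeft x0⁻¹) fun x => by simp)

theorem cp_ge_bonus [Finite G] (Z : Subgroup G) (hZ : Z ≤ center G) (x0 : G) (δ : ℝ)
    (hx0 : x0 ∈ Z → δ ≤ 0)
    (hδ : 2 / (Z.index : ℝ) + δ ≤ 1 / ((centralizer ({x0} : Set G)).index : ℝ)) :
    (3 * (Z.index : ℝ) - 2) / (Z.index : ℝ) ^ 2 + δ / Z.index ≤ commProb G := by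
  classical
  have := Fintype.ofFinite G
  have h0 : (0 : ℝ) < Nat.card G := by exact_mod_cast Nat.card_pos
  have hν : (0 : ℝ) < Z.index := by exact_mod_cast Nat.pos_of_ne_zero index_ne_zero_of_finite
  have hc : (Nat.card Z : ℝ) * Z.index = Nat.card G := by exact_mod_cast card_mul_index Z
  have key : ∀ x : G, 2 / (Z.index : ℝ) + (if (1 : G)⁻¹ * x ∈ Z then 1 - 2 / (Z.index : ℝ) else 0) +
      (if x0⁻¹ * x ∈ Z then δ else 0) ≤ 1 / ((centralizer ({x} : Set G)).index : ℝ) := by
    intro x
    simp only [inv_one, one_mul]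
    by_cases hx : x ∈ Z
    · rw [if_pos hx, index_centralizer_of_central (hZ hx)]
      split_ifs with h
      · have : x0 ∈ Z := by simpa using (mul_mem_cancel_right hx).1 h
        have := hx0 this
        push_cast
        linarith
      · push_cast
        linarith
    · rw [if_neg hx]
      split_ifs with h
      · have : centralizer ({x} : Set G) = centralizer ({x0} : Set G) := by
          ext y
          rw [mem_centralizer_singleton_iff, mem_centralizer_singleton_iff]
          have hc := mem_center_iff.1 (hZ h) y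
          constructor
          · intro h1
            have : y * x0⁻¹ * x = x0⁻¹ * y * x := by rw [mul_assoc, hc, mul_assoc, mul_assoc, h1]
            have h3 : Commute y x0⁻¹ := mul_right_cancel this
            exact (Commute.inv_right_iff.1 h3).eq
          · intro h1
            have h2 : Commute y x0 := h1
            have h3 : Commute y (x0⁻¹ * x) := hc
            have := h2.mul_right h3
            simpa using this.eq
        rw [this]
        linarith
      · have h2 := two_mul_index_le (le_centralizer_of_le_center hZ x)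
          (fun h => hx (h (mem_centralizer_singleton_iff.2 rfl)))
        have h3 : (0 : ℝ) < (centralizer ({x} : Set G)).index := by
          exact_mod_cast Nat.pos_of_ne_zero index_ne_zero_of_finite
        have h4 : 2 * ((centralizer ({x} : Set G)).index : ℝ) ≤ Z.index := by exact_mod_cast h2
        simp only [add_zero]
        rw [div_le_div_iff₀ hν h3]
        linarith
  have hs := Finset.sum_le_sum fun x (_ : x ∈ Finset.univ) => key x
  rw [Finset.sum_add_distrib, Finset.sum_add_distrib, sum_ite_subgroup, sum_ite_subgroup,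
    Finset.sum_const, Finset.card_univ, ← Nat.card_eq_fintype_card, nsmul_eq_mul] at hs
  rw [cp_formula, le_div_iff₀ h0]
  refine le_trans (le_of_eq ?_) hs
  rw [← hc]
  field_simp
  ring

/-- The function `(3 ν - 2) / ν ^ 2`. -/
noncomputable def phi (v : ℝ) : ℝ := (3 * v - 2) / v ^ 2

theorem phi_anti {u v : ℝ} (hu : 2 ≤ u) (huv : u ≤ v) : phi v ≤ phi u := by
  rw [phi, phi, div_le_div_iff₀ (by have : 0 < v := by linarith
                                    positivity) (by positivity)]
  have h1 : 0 ≤ v - u := by linarith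
  have h2 : 0 ≤ 3 * u * v - 2 * u - 2 * v := by nlinarith
  nlinarith [mul_nonneg h1 h2]

theorem cp_ge [Finite G] (Z : Subgroup G) (hZ : Z ≤ center G) {v : ℝ} (hv : 2 ≤ v)
    (h : (Z.index : ℝ) ≤ v) : phi v ≤ commProb G := by
  by_cases h1 : Z.index = 1
  · have : IsMulCommutative G := ⟨⟨fun a b => by
      rw [index_eq_one] at h1
      exact mem_center_iff.1 (hZ (h1 ▸ mem_top b)) a⟩⟩
    rw [commProb_eq_one_iff.2 this]
    refine (phi_anti le_rfl hv).trans ?_
    norm_num [phi]
  · have h2 : 2 ≤ Z.index := by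
      have : Z.index ≠ 0 := index_ne_zero_of_finite
      omega
    have h3 : (2 : ℝ) ≤ Z.index := by exact_mod_cast h2
    have := cp_ge_bonus Z hZ 1 0 (fun _ => le_rfl) (by
      rw [index_centralizer_of_central (one_mem _), add_zero, Nat.cast_one, div_one,
        div_le_one (by linarith)]
      exact h3)
    rw [zero_div, add_zero] at this
    exact (phi_anti h3 h).trans this

theorem cp_ge_cyclic [Finite G] (h : G) :
    1 / ((zpowers h).index : ℝ) ^ 2 ≤ commProb G := by
  have h1 := commProb_subgroup_le (zpowers h)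
  rw [commProb_eq_one_iff.2 inferInstance] at h1
  have hν : (0 : ℝ) < (zpowers h).index := by
    exact_mod_cast Nat.pos_of_ne_zero index_ne_zero_of_finite
  rw [div_le_iff₀ (by positivity)]
  exact_mod_cast h1

theorem cp_of_index_four [Finite G] (h : (center G).index = 4) : (commProb G : ℝ) = 5 / 8 := by
  classical
  have := Fintype.ofFinite G
  have h0 : (0 : ℝ) < Nat.card G := by exact_mod_cast Nat.card_pos
  have hc : (Nat.card (center G) : ℝ) * (center G).index = Nat.card G := by
    exact_mod_cast card_mul_index _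
  have key : ∀ x : G, 1 / ((centralizer ({x} : Set G)).index : ℝ) =
      1 / 2 + (if (1 : G)⁻¹ * x ∈ center G then 1 / 2 else 0) := by
    intro x
    simp only [inv_one, one_mul]
    split_ifs with hx
    · rw [index_centralizer_of_central hx]; norm_num
    · have h2 := two_mul_index_le (le_centralizer_of_le_center le_rfl x)
          (fun h => hx (h (mem_centralizer_singleton_iff.2 rfl)))
      have h3 : (centralizer ({x} : Set G)).index ≠ 0 := index_ne_zero_of_finite
      have h4 : (centralizer ({x} : Set G)).index ≠ 1 := fun h4 => hx (by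
        rw [index_eq_one] at h4
        exact mem_center_iff.2 fun y => mem_centralizer_singleton_iff.1 (h4 ▸ mem_top y))
      have : (centralizer ({x} : Set G)).index = 2 := by omega
      rw [this]; norm_num
  rw [cp_formula, Finset.sum_congr rfl fun x _ => key x, Finset.sum_add_distrib, sum_ite_subgroup,
    Finset.sum_const, Finset.card_univ, ← Nat.card_eq_fintype_card, nsmul_eq_mul, div_eq_iff h0.ne',
    ← hc, h]
  push_cast
  ring

theorem commProb_congr {G' : Type*} [Group G'] (e : G ≃* G') : commProb G = commProb G' := by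
  rw [commProb_def, commProb_def, Nat.card_congr e.toEquiv]
  congr 2
  refine Nat.card_congr (Equiv.subtypeEquiv (e.toEquiv.prodCongr e.toEquiv) fun p => ?_)
  simp only [Commute, SemiconjBy, MulEquiv.toEquiv_eq_coe, Equiv.prodCongr_apply,
    EquivLike.coe_coe, Prod.map_fst, Prod.map_snd, ← map_mul, EmbeddingLike.apply_eq_iff_eq]

end Pool.Agent.Work.MP_7792ce_al
end

-- merged part: Pool.Agent.Work.MP_7792ce_al.Struct
section
/-!
Structure of groups whose small cyclic subgroups are normal.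
-/

namespace Pool.Agent.Work.MP_7792ce_al

open Subgroup

variable {G : Type*} [Group G]

theorem pow_mul_swap {x y c : G} (h : y * x = x * y * c) (hy : Commute c y)
    (k : ℕ) : y ^ k * x = x * y ^ k * c ^ k := by
  induction k with
  | zero => simp
  | succ k ih =>
    rw [pow_succ, mul_assoc, h, ← mul_assoc, ← mul_assoc, ih, pow_succ, mul_assoc (x * y ^ k),
      (hy.pow_left k).eq]
    simp only [mul_assoc]

theorem mul_pow_class2 {x y c : G} (h : y * x = x * y * c) (hy : Commute c y)
    (hx : Commute c x) (k : ℕ) : (x * y) ^ k = x ^ k * y ^ k * c ^ (k.choose 2) := by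
  induction k with
  | zero => simp
  | succ k ih =>
    have e : (k + 1).choose 2 = k + k.choose 2 := by
      rw [Nat.choose_succ_succ' k 1, Nat.choose_one_right]
    rw [pow_succ, ih, e, mul_assoc, ((hx.mul_right hy).pow_left _).eq, ← mul_assoc, ← mul_assoc,
      mul_assoc (x ^ k), pow_mul_swap h hy, pow_add c, pow_succ x, pow_succ y]
    simp only [mul_assoc]
    rw [← mul_assoc (c ^ k), (hy.pow_left k).eq, mul_assoc]

theorem mem_zpowers_of_order [Finite G] {x c u : G} {p : ℕ} (hc : c ∈ zpowers x)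
    (hu : u ∈ zpowers x) (ho : orderOf c = p) (hup : u ^ p = 1) : u ∈ zpowers c := by
  classical
  have := Fintype.ofFinite G
  have hp : 0 < p := ho ▸ orderOf_pos c
  have h1 := IsCyclic.card_pow_eq_one_le (α := zpowers x) hp
  have h2 : (Finset.univ.filter fun a : zpowers x => (a : G) ∈ zpowers c) =
      Finset.univ.filter fun a : zpowers x => a ^ p = 1 := by
    refine Finset.eq_of_subset_of_card_le (fun a ha => ?_) (h1.trans (le_of_eq ?_))
    · obtain ⟨k, hk⟩ := (Finset.mem_filter.1 ha).2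
      refine Finset.mem_filter.2 ⟨Finset.mem_univ _, Subtype.ext ?_⟩
      simp only [SubgroupClass.coe_pow, OneMemClass.coe_one, ← hk]
      rw [← zpow_natCast, ← zpow_mul, mul_comm, zpow_mul, zpow_natCast, ← ho, pow_orderOf_eq_one,
        one_zpow]
    · rw [← Fintype.card_subtype, ← Nat.card_eq_fintype_card, ← ho, ← Nat.card_zpowers]
      exact Nat.card_congr (Equiv.subtypeSubtypeEquivSubtype
        (fun {a} (ha : a ∈ zpowers c) => zpowers_le_of_mem hc ha)).symm
  have h3 : (⟨u, hu⟩ : zpowers x) ∈ Finset.univ.filter fun a : zpowers x => a ^ p = 1 :=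
    Finset.mem_filter.2 ⟨Finset.mem_univ _, Subtype.ext hup⟩
  rw [← h2] at h3
  exact (Finset.mem_filter.1 h3).2

theorem orderOf_pow_pow {x : G} {p e i : ℕ} (hp : p.Prime) (h : orderOf x = p ^ e) (hi : i ≤ e) :
    orderOf (x ^ p ^ i) = p ^ (e - i) := by
  rw [orderOf_pow_of_dvd (pow_pos hp.pos _).ne' (h ▸ pow_dvd_pow p hi), h,
    Nat.pow_div hi hp.pos]

theorem commute_of_mem_zpowers {c x y : G} (hc : x ∈ zpowers c) (h : Commute c y) :
    Commute x y := by
  obtain ⟨k, rfl⟩ := hc
  exact h.zpow_left k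

theorem eq_one_of_swap {x y c : G} (h : y * x = x * y * c) (hc : Commute x y) : c = 1 := by
  rw [← hc.eq] at h
  simpa using h

theorem lemK [Finite G] {x y c : G} {p e b : ℕ} (hp : p.Prime) (h : y * x = x * y * c)
    (hc1 : c ≠ 1) (hcp : c ^ p = 1) (hcx : c ∈ zpowers x) (hcy : c ∈ zpowers y)
    (hx : orderOf x = p ^ e) (hy : orderOf y = p ^ b) (heb : e ≤ b) (h2 : ¬ (p = 2 ∧ b = 2)) :
    1 ≤ e ∧ ∃ j : ℕ, (x * y ^ (j * p ^ (b - e))) ^ p ^ (e - 1) = 1 := by
  have : Fact p.Prime := ⟨hp⟩
  have hoc : orderOf c = p := orderOf_eq_prime hcp hc1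
  have cx : Commute c x := commute_of_mem_zpowers hcx (Commute.refl x)
  have cy : Commute c y := commute_of_mem_zpowers hcy (Commute.refl y)
  have he : 2 ≤ e := by
    by_contra he
    have hxp : x ^ p = 1 := by
      rw [← orderOf_dvd_iff_pow_eq_one, hx]
      exact (pow_dvd_pow p (by omega : e ≤ 1)).trans (by simp)
    exact hc1 (eq_one_of_swap h (commute_of_mem_zpowers
      (mem_zpowers_of_order hcx (mem_zpowers x) hoc hxp) cy))
  refine ⟨by omega, ?_⟩
  have hu : (x ^ p ^ (e - 1)) ^ p = 1 := by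
    rw [← pow_mul, ← pow_succ, Nat.sub_add_cancel (by omega), ← hx, pow_orderOf_eq_one]
  have hu1 : x ^ p ^ (e - 1) ∈ zpowers c :=
    mem_zpowers_of_order hcx (pow_mem (mem_zpowers x) _) hoc hu
  have hγ : orderOf (y ^ p ^ (b - 1)) = p := by
    rw [orderOf_pow_pow hp hy (by omega), show b - (b - 1) = 1 by omega, pow_one]
  have hu2 : (x ^ p ^ (e - 1))⁻¹ ∈ zpowers (y ^ p ^ (b - 1)) :=
    mem_zpowers_of_order (pow_mem (mem_zpowers y) _) (inv_mem (zpowers_le_of_mem hcy hu1)) hγ
      (by rw [inv_pow, hu, inv_one])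
  obtain ⟨j, hj⟩ := mem_powers_iff_mem_zpowers.2 hu2
  refine ⟨j, ?_⟩
  simp only at hj
  have h' := pow_mul_swap h cy (j * p ^ (b - e))
  rw [mul_pow_class2 h' ((cy.pow_left _).pow_right _) (cx.pow_left _), ← pow_mul, ← pow_mul,
    mul_assoc j, ← pow_add, show b - e + (e - 1) = b - 1 by omega, mul_comm j, pow_mul, hj,
    mul_inv_cancel, one_mul, ← orderOf_dvd_iff_pow_eq_one, hoc]
  rcases heb.lt_or_eq with hlt | rfl
  · exact Dvd.dvd.mul_right (Dvd.dvd.mul_left (dvd_pow_self p (by omega)) _) _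
  · refine Dvd.dvd.mul_left ?_ _
    have e1 : 2 * (p ^ (e - 1)).choose 2 = p ^ (e - 1) * (p ^ (e - 1) - 1) := by
      rw [Nat.choose_two_right, Nat.mul_div_cancel' (Nat.even_mul_pred_self _).two_dvd]
    by_cases hp2 : p = 2
    · subst hp2
      have h4 : 2 * 2 ∣ 2 * (2 ^ (e - 1)).choose 2 := by
        rw [e1]
        refine Dvd.dvd.mul_right ?_ _
        exact pow_dvd_pow 2 (show 2 ≤ e - 1 by omega)
      exact Nat.dvd_of_mul_dvd_mul_left (by norm_num) h4
    · have h4 : p ∣ 2 * (p ^ (e - 1)).choose 2 := by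
        rw [e1]
        exact Dvd.dvd.mul_right (dvd_pow_self p (by omega)) _
      exact ((Nat.coprime_primes hp Nat.prime_two).2 hp2).dvd_of_dvd_mul_left h4

theorem exists_primePow_part [Finite G] (K : Subgroup G) (g : G) (hg : g ∉ K) :
    ∃ g' ∈ zpowers g, g' ∉ K ∧ ∃ q b : ℕ, q.Prime ∧ orderOf g' = q ^ b := by
  induction hn : orderOf g using Nat.strong_induction_on generalizing g with
  | _ n ih =>
  have hn0 : n ≠ 0 := hn ▸ (orderOf_pos g).ne'
  have hn1 : n ≠ 1 := fun h => hg (by rw [orderOf_eq_one_iff.1 (hn.trans h)]; exact one_mem _)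
  have hq := Nat.minFac_prime hn1
  obtain ⟨a, m, hm, e⟩ := Nat.exists_eq_pow_mul_and_not_dvd hn0 n.minFac hq.ne_one
  set q := n.minFac
  have hm0 : m ≠ 0 := fun h => hm (h ▸ dvd_zero _)
  by_cases h1 : g ^ m ∈ K
  · have h2 : g ^ q ^ a ∉ K := fun h2 => hg (by
      have hcop : IsCoprime ((q ^ a : ℕ) : ℤ) (m : ℤ) := Nat.isCoprime_iff_coprime.2
        (Nat.Coprime.pow_left _ ((Nat.Prime.coprime_iff_not_dvd hq).2 hm))
      obtain ⟨u, v, huv⟩ := hcop
      have : g = (g ^ q ^ a) ^ u * (g ^ m) ^ v := by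
        rw [← zpow_natCast, ← zpow_natCast, ← zpow_mul, ← zpow_mul, ← zpow_add, mul_comm _ u,
          mul_comm _ v, huv, zpow_one]
      rw [this]
      exact mul_mem (zpow_mem h2 u) (zpow_mem h1 v))
    have ha : a ≠ 0 := by
      rintro rfl
      apply hm
      rw [pow_zero, one_mul] at e
      rw [← e]
      exact Nat.minFac_dvd n
    have ho : orderOf (g ^ q ^ a) = m := by
      rw [orderOf_pow_of_dvd (pow_pos hq.pos _).ne' (by rw [hn, e]; exact dvd_mul_right _ _), hn, e,
        Nat.mul_div_cancel_left _ (pow_pos hq.pos _)]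
    obtain ⟨g', h3, h4⟩ := ih m (by
      rw [e]
      exact lt_mul_of_one_lt_left (Nat.pos_of_ne_zero hm0) (Nat.one_lt_pow ha hq.one_lt)) _ h2 ho
    exact ⟨g', zpowers_le_of_mem (pow_mem (mem_zpowers g) _) h3, h4⟩
  · refine ⟨g ^ m, pow_mem (mem_zpowers g) _, h1, q, a, hq, ?_⟩
    rw [orderOf_pow_of_dvd hm0 (by rw [hn, e]; exact dvd_mul_left _ _), hn, e,
      Nat.mul_div_cancel _ (Nat.pos_of_ne_zero hm0)]

theorem commute_pow_totient [Finite G] {z : G} (hz : (zpowers z).Normal) (g : G) :
    Commute (g ^ (orderOf z).totient) z := by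
  have h1 : (MulAut.conjNormal (H := zpowers z) g) ^ (orderOf z).totient = 1 := by
    rw [← Nat.card_zpowers, ← IsCyclic.card_mulAut]
    exact pow_card_eq_one'
  rw [← map_pow] at h1
  have h2 := congrArg (fun f : MulAut (zpowers z) => (f ⟨z, mem_zpowers z⟩ : G)) h1
  simp only [MulAut.conjNormal_apply, MulAut.one_apply] at h2
  exact mul_inv_eq_iff_eq_mul.1 h2

theorem commute_of_coprime_totient [Finite G] {z : G} (hz : (zpowers z).Normal) (g : G)
    (h : (orderOf z).totient.Coprime (orderOf g)) : Commute g z := by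
  obtain ⟨m, hm⟩ := exists_pow_eq_self_of_coprime h
  rw [← hm]
  exact (commute_pow_totient hz g).pow_left m

theorem swap_comm (x y : G) : y * x = x * y * (y⁻¹ * x⁻¹ * y * x) := by group

theorem comm_mem_left {x : G} (hx : (zpowers x).Normal) (y : G) :
    y⁻¹ * x⁻¹ * y * x ∈ zpowers x :=
  mul_mem (hx.conj_mem' _ (inv_mem (mem_zpowers x)) y) (mem_zpowers x)

theorem comm_mem_right {y : G} (hy : (zpowers y).Normal) (x : G) :
    y⁻¹ * x⁻¹ * y * x ∈ zpowers y := by
  have := mul_mem (inv_mem (mem_zpowers y)) (hy.conj_mem' _ (mem_zpowers y) x)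
  simpa only [mul_assoc] using this

theorem comm_ne_one {x y : G} (h : ¬ Commute x y) : y⁻¹ * x⁻¹ * y * x ≠ 1 := fun h1 =>
  h (by have := swap_comm x y; rw [h1, mul_one] at this; exact this.symm)

theorem commute_of_coprime_normal {x y : G} (hx : (zpowers x).Normal) (hy : (zpowers y).Normal)
    (h : (orderOf x).Coprime (orderOf y)) : Commute x y := by
  by_contra hc
  apply comm_ne_one hc
  rw [← orderOf_eq_one_iff]
  exact Nat.eq_one_of_dvd_coprimes h (orderOf_dvd_of_mem_zpowers (comm_mem_left hx y))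
    (orderOf_dvd_of_mem_zpowers (comm_mem_right hy x))

theorem exists_order_of_pow_eq_one {x : G} {p e : ℕ} (hp : p.Prime) (h : x ^ p ^ e = 1) :
    ∃ d ≤ e, orderOf x = p ^ d :=
  (Nat.dvd_prime_pow hp).1 (orderOf_dvd_of_pow_eq_one h)

theorem central_of_order_le_two [Finite G] {z : G} (hz : (zpowers z).Normal) (h : z ^ 2 = 1) :
    z ∈ center G := by
  refine mem_center_iff.2 fun g => (commute_of_coprime_totient hz g ?_).eq
  obtain ⟨d, hd, ho⟩ := exists_order_of_pow_eq_one (e := 1) Nat.prime_two (by simpa using h)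
  rw [ho]
  interval_cases d <;> simp

/-- No `p`-element moves `h ^ p`. -/
theorem no_p_element [Finite G] {h z : G} {p e : ℕ} (hp : p.Prime) (hzh : z ∈ zpowers (h ^ p))
    (hz : orderOf z = p ^ e) (hzp : z ^ p ∈ center G)
    (hmin : ∀ x : G, orderOf x ≤ p ^ e → (zpowers x).Normal) (b : ℕ) :
    ∀ y : G, orderOf y = p ^ b → Commute z y := by
  induction b using Nat.strong_induction_on with
  | _ b ih =>
  intro y hy
  by_contra hzy
  have : Fact p.Prime := ⟨hp⟩
  have hzn := hmin z hz.le
  set c := y⁻¹ * z⁻¹ * y * z with hc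
  have hsw : y * z = z * y * c := swap_comm z y
  have hc1 : c ≠ 1 := comm_ne_one hzy
  have hcz : c ∈ zpowers z := comm_mem_left hzn y
  have cz : Commute c z := commute_of_mem_zpowers hcz (Commute.refl z)
  have he : 2 ≤ e := by
    by_contra he
    apply hzy
    refine (commute_of_coprime_totient hzn y ?_).symm
    rw [hz, hy]
    have : e = 0 ∨ e = 1 := by omega
    rcases this with rfl | rfl
    · simp
    · rw [pow_one, Nat.totient_prime hp]
      exact Nat.Coprime.pow_right _ (Nat.coprime_self_sub_left hp.one_le |>.2 (by simp))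
  have hcp : c ^ p = 1 := by
    have h1 : y⁻¹ * z⁻¹ * y = c * z⁻¹ := by rw [hc]; group
    have h2 : (y⁻¹ * z⁻¹ * y) ^ p = (z ^ p)⁻¹ := by
      have : y⁻¹ * z⁻¹ * y = y⁻¹ * z⁻¹ * y⁻¹⁻¹ := by rw [inv_inv]
      rw [this, conj_pow, inv_pow, mem_center_iff.1 (inv_mem hzp) y⁻¹]
      group
    rw [h1, cz.inv_right.mul_pow, inv_pow] at h2
    simpa using h2
  have hoc : orderOf c = p := orderOf_eq_prime hcp hc1
  have hcc : c ∈ center G := by
    have h1 : orderOf (z ^ p ^ (e - 1)) = p := by
      rw [orderOf_pow_pow hp hz (by omega), show e - (e - 1) = 1 by omega, pow_one]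
    refine zpowers_le_of_mem ?_ (mem_zpowers_of_order (pow_mem (mem_zpowers z) _) hcz h1 hcp)
    rw [show e - 1 = (e - 2) + 1 by omega, pow_succ', pow_mul]
    exact pow_mem hzp _
  have cc : ∀ g : G, Commute c g := fun g => (mem_center_iff.1 hcc g).symm
  rcases le_or_gt b e with hbe | hbe
  · have hyn := hmin y (hy ▸ Nat.pow_le_pow_right hp.pos hbe)
    by_cases h2 : p = 2 ∧ e = 2
    · obtain ⟨rfl, rfl⟩ := h2
      apply hzy
      refine commute_of_mem_zpowers hzh ?_
      have h3 := commute_pow_totient hyn h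
      rw [hy] at h3
      interval_cases b
      · simpa [sq] using h3.pow_left 2
      · simpa [sq] using h3.pow_left 2
      · exact h3
    · have hsw' : z * y = y * z * c⁻¹ := by rw [hsw]; group
      obtain ⟨hb, j, hj⟩ := lemK hp hsw' (inv_ne_one.2 hc1) (by rw [inv_pow, hcp, inv_one])
        (inv_mem (comm_mem_right hyn z)) (inv_mem hcz) hy hz hbe h2
      obtain ⟨d, hd, ho⟩ := exists_order_of_pow_eq_one hp hj
      have h3 := ih d (by omega) _ ho
      apply hzy
      have h4 := h3.mul_right ((Commute.refl z).pow_right (j * p ^ (e - b))).inv_right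
      simpa using h4
  · have hyz : Commute (y ^ p) z := by
      have := pow_mul_swap hsw (cc y) p
      rw [hcp, mul_one] at this
      exact this
    have hex : ∃ n, ∃ k : ℕ, orderOf (z * (y ^ p) ^ k) = n := ⟨_, 0, rfl⟩
    classical
    obtain ⟨k, hk⟩ := Nat.find_spec hex
    have hkmin : ∀ k' : ℕ, orderOf (z * (y ^ p) ^ k) ≤ orderOf (z * (y ^ p) ^ k') := fun k' =>
      hk ▸ Nat.find_min' hex ⟨k', rfl⟩
    set x := z * (y ^ p) ^ k with hx
    have hsw2 : ∀ k' : ℕ, y * (z * (y ^ p) ^ k') = z * (y ^ p) ^ k' * y * c := fun k' => by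
      rw [← mul_assoc, hsw, mul_assoc (z * y), (cc _).eq, mul_assoc z, mul_assoc z, mul_assoc z,
        ← (((Commute.refl y).pow_right p).pow_right k').eq]
      simp only [mul_assoc]
    have hcomm : ∀ k' : ℕ, y⁻¹ * (z * (y ^ p) ^ k')⁻¹ * y * (z * (y ^ p) ^ k') = c := fun k' => by
      rw [mul_assoc (y⁻¹ * _), hsw2]
      group
    have hxe : orderOf x ≤ p ^ e := by simpa [hz] using hkmin 0
    have hxp : x ^ p ^ b = 1 := by
      have h1 : z ^ p ^ b = 1 := by
        rw [← orderOf_dvd_iff_pow_eq_one, hz]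
        exact pow_dvd_pow p hbe.le
      have h2 : y ^ p ^ b = 1 := hy ▸ pow_orderOf_eq_one y
      rw [hx, (hyz.pow_left k).symm.mul_pow, h1, ← pow_mul, ← pow_mul, mul_comm, pow_mul, mul_comm,
        pow_mul, h2]
      simp
    obtain ⟨d, -, hd⟩ := exists_order_of_pow_eq_one hp hxp
    have hde : d ≤ e := (Nat.pow_le_pow_iff_right hp.one_lt).1 (hd ▸ hxe)
    have hcx : c ∈ zpowers x := hcomm k ▸ comm_mem_left (hmin x hxe) y
    have hxy : Commute x (y ^ p) := hyz.symm.mul_left ((Commute.refl _).pow_left k)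
    have hd1 : 1 ≤ d := by
      by_contra hd0
      have : d = 0 := by omega
      rw [this, pow_zero, orderOf_eq_one_iff] at hd
      rw [hd] at hcx
      exact hc1 (by simpa using hcx)
    have hx1 : x * (y ^ p) ^ p ^ (b - d - 1) = z * (y ^ p) ^ (k + p ^ (b - d - 1)) := by
      rw [pow_add, hx, mul_assoc]
    have hpow : ∀ i : ℕ, (x * (y ^ p) ^ p ^ (b - d - 1)) ^ p ^ i = x ^ p ^ i * y ^ p ^ (b - d + i) :=
      fun i => by
        rw [(hxy.pow_right _).mul_pow, ← pow_mul, ← pow_mul, ← pow_add, ← pow_succ',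
          show b - d - 1 + i + 1 = b - d + i by omega]
    have hx2 : (x * (y ^ p) ^ p ^ (b - d - 1)) ^ p ^ d = 1 := by
      rw [hpow, ← hd, pow_orderOf_eq_one, show b - d + d = b by omega, ← hy, pow_orderOf_eq_one,
        one_mul]
    have hn2 : (zpowers (x * (y ^ p) ^ p ^ (b - d - 1))).Normal :=
      hmin _ ((orderOf_le_of_pow_eq_one (pow_pos hp.pos _) hx2).trans (hd ▸ hxe))
    have hcx2 : c ∈ zpowers (x * (y ^ p) ^ p ^ (b - d - 1)) := by
      have := comm_mem_left hn2 y
      rwa [hx1, hcomm, ← hx1] at this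
    have h5 : (x * (y ^ p) ^ p ^ (b - d - 1)) ^ p ^ (d - 1) ∈ zpowers c :=
      mem_zpowers_of_order hcx2 (pow_mem (mem_zpowers _) _) hoc
        (by rw [← pow_mul, ← pow_succ, Nat.sub_add_cancel hd1, hx2])
    have h6 : x ^ p ^ (d - 1) ∈ zpowers c :=
      mem_zpowers_of_order hcx (pow_mem (mem_zpowers _) _) hoc
        (by rw [← pow_mul, ← pow_succ, Nat.sub_add_cancel hd1, ← hd, pow_orderOf_eq_one])
    rw [hpow, mul_mem_cancel_left h6, show b - d + (d - 1) = b - 1 by omega] at h5
    have hγ : orderOf (y ^ p ^ (b - 1)) = p := by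
      rw [orderOf_pow_pow hp hy (by omega), show b - (b - 1) = 1 by omega, pow_one]
    have hcy : c ∈ zpowers y := zpowers_le_of_mem (pow_mem (mem_zpowers y) _)
      (mem_zpowers_of_order h5 (mem_zpowers c) hγ hcp)
    obtain ⟨-, j, hj⟩ := lemK hp (hsw2 k) hc1 hcp hcx hcy hd hy (by omega) (by omega)
    have h7 : x * y ^ (j * p ^ (b - d)) = z * (y ^ p) ^ (k + j * p ^ (b - d - 1)) := by
      rw [pow_add, hx, mul_assoc, ← pow_mul y p (j * _), mul_left_comm, ← pow_succ',
        show b - d - 1 + 1 = b - d by omega]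
    have h8 := hkmin (k + j * p ^ (b - d - 1))
    rw [← h7, hd] at h8
    have h9 := orderOf_le_of_pow_eq_one (pow_pos hp.pos _) hj
    have h10 : p ^ (d - 1) < p ^ d := Nat.pow_lt_pow_right hp.one_lt (by omega)
    exact absurd (h8.trans h9) (by omega)

theorem central_or_coprime [Finite G] {h : G} {p a : ℕ} (hp : p.Prime)
    (ha : orderOf h = p ^ (a + 1)) (hmin : ∀ x : G, orderOf x < p ^ (a + 1) → (zpowers x).Normal) :
    h ^ p ∈ center G ∨ (p ≠ 2 ∧ 1 ≤ a ∧ ∃ q b : ℕ, q.Prime ∧ q ≠ p ∧ p ^ (a + 1) < q ^ b ∧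
      q ^ b ∣ (zpowers h).index) := by
  classical
  by_cases hc : h ^ p ∈ center G
  · exact Or.inl hc
  right
  have hex : ∃ i, h ^ p ^ (i + 1) ∈ center G :=
    ⟨a, by rw [← ha, pow_orderOf_eq_one]; exact one_mem _⟩
  have h1 := Nat.find_spec hex
  have h2 : Nat.find hex ≤ a := Nat.find_min' hex
    (by rw [← ha, pow_orderOf_eq_one]; exact one_mem _)
  have h3 : Nat.find hex ≠ 0 := fun h3 => hc (by simpa [h3] using h1)
  obtain ⟨i, hi⟩ := Nat.exists_eq_succ_of_ne_zero h3
  have h4 : h ^ p ^ (i + 1) ∉ center G := Nat.find_min hex (by omega)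
  rw [hi] at h1 h2
  set z := h ^ p ^ (i + 1) with hz
  have hoz : orderOf z = p ^ (a - i) := by
    rw [hz, orderOf_pow_pow hp ha (by omega)]
    congr 1
    omega
  have hzp : z ^ p ∈ center G := by rwa [hz, ← pow_mul, ← pow_succ]
  have hlt : p ^ (a - i) < p ^ (a + 1) := Nat.pow_lt_pow_right hp.one_lt (by omega)
  have hzn : (zpowers z).Normal := hmin z (hoz ▸ hlt)
  obtain ⟨g, hg⟩ : ∃ g : G, g ∉ centralizer ({z} : Set G) := by
    by_contra hcon
    push Not at hcon
    exact h4 (mem_center_iff.2 fun g => mem_centralizer_singleton_iff.1 (hcon g))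
  obtain ⟨y, -, hy, q, b, hq, hyo⟩ := exists_primePow_part _ g hg
  have hyz : ¬ Commute y z := fun h => hy (mem_centralizer_singleton_iff.2 h.eq)
  have hqp : q ≠ p := by
    rintro rfl
    refine hyz (no_p_element (h := h) hp ?_ hoz hzp (fun x hx => hmin x (hx.trans_lt hlt)) b y
      hyo).symm
    rw [hz, pow_succ', pow_mul]
    exact pow_mem (mem_zpowers _) _
  have hcop : ∀ i j : ℕ, (q ^ i).Coprime (p ^ j) := fun i j =>
    Nat.Coprime.pow _ _ ((Nat.coprime_primes hq hp).2 hqp)
  refine ⟨?_, by omega, q, b, hq, hqp, ?_, ?_⟩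
  · rintro rfl
    refine hyz (commute_of_coprime_totient hzn y ?_)
    rw [hoz, hyo, Nat.totient_prime_pow hp (by omega)]
    simpa using (hcop _ _).symm
  · have h5 : p ^ (a + 1) ≤ q ^ b := by
      by_contra h5
      refine hyz (commute_of_coprime_normal (hmin y (by omega)) hzn ?_)
      rw [hoz, hyo]
      exact hcop _ _
    refine lt_of_le_of_ne h5 fun h6 => ?_
    have := hcop b (a + 1)
    rw [← h6, Nat.coprime_self] at this
    exact (Nat.one_lt_pow (Nat.succ_ne_zero a) hp.one_lt).ne' this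
  · have h5 : q ^ b ∣ Nat.card G := hyo ▸ orderOf_dvd_natCard y
    rw [← card_mul_index (zpowers h), Nat.card_zpowers, ha] at h5
    exact (hcop _ _).dvd_of_dvd_mul_left h5

end Pool.Agent.Work.MP_7792ce_al
end

-- merged part: Pool.Agent.Work.MP_7792ce_al.Dedekind
section
/-!
Non-abelian Dedekind groups have centre of index four.
-/

namespace Pool.Agent.Work.MP_7792ce_al

open Subgroup

variable {G : Type*} [Group G]

theorem mem_zpowers_four [Finite G] {x u : G} (hx : orderOf x = 4) (hu : u ∈ zpowers x) :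
    u = 1 ∨ u = x ∨ u = x ^ 2 ∨ u = x⁻¹ := by
  obtain ⟨k, hk⟩ := mem_powers_iff_mem_zpowers.2 hu
  simp only at hk
  rw [← pow_mod_orderOf, hx] at hk
  have h4 : x ^ 4 = 1 := hx ▸ pow_orderOf_eq_one x
  have h3 : x ^ 3 = x⁻¹ := eq_inv_of_mul_eq_one_left (by rw [← pow_succ, h4])
  have : k % 4 < 4 := Nat.mod_lt _ (by norm_num)
  interval_cases k % 4
  · left; simpa using hk.symm
  · right; left; simpa using hk.symm
  · right; right; left; exact hk.symm
  · right; right; right; rw [← hk, h3]

theorem sq_ne_one_of_order_four {x : G} (hx : orderOf x = 4) : x ^ 2 ≠ 1 := fun h => by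
  have := orderOf_dvd_of_pow_eq_one h
  rw [hx] at this
  omega

theorem eq_sq_of_order_four [Finite G] {x c : G} (hx : orderOf x = 4) (hc : c ∈ zpowers x)
    (h1 : c ≠ 1) (h2 : c ^ 2 = 1) : c = x ^ 2 := by
  rcases mem_zpowers_four hx hc with h | h | h | h
  · exact absurd h h1
  · exact absurd (h ▸ h2) (sq_ne_one_of_order_four hx)
  · exact h
  · rw [h, inv_pow, inv_eq_one] at h2
    exact absurd h2 (sq_ne_one_of_order_four hx)

theorem conj_four [Finite G] {x g : G} (hx : orderOf x = 4) (hg : g * x * g⁻¹ ∈ zpowers x) :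
    g * x * g⁻¹ = x ∨ g * x * g⁻¹ = x⁻¹ := by
  have h2 : (g * x * g⁻¹) ^ 2 ≠ 1 := by
    rw [conj_pow]
    intro h
    apply sq_ne_one_of_order_four hx
    simpa using h
  rcases mem_zpowers_four hx hg with h | h | h | h
  · exact absurd (by rw [h, one_pow]) h2
  · exact Or.inl h
  · exact absurd (by rw [h, ← pow_mul, show 2 * 2 = orderOf x from hx.symm, pow_orderOf_eq_one]) h2
  · exact Or.inr h

theorem index_centralizer_two {x y : G} (hconj : ∀ g : G, g * x * g⁻¹ = x ∨ g * x * g⁻¹ = x⁻¹)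
    (hy : ¬ Commute y x) : (centralizer ({x} : Set G)).index = 2 := by
  have hne : x⁻¹ ≠ x := fun h => hy (mul_inv_eq_iff_eq_mul.1 (by
    rcases hconj y with h1 | h1
    · exact h1
    · rw [h1, h]))
  have key : ∀ g : G, g ∈ centralizer ({x} : Set G) ↔ g * x * g⁻¹ = x := fun g => by
    rw [mem_centralizer_singleton_iff, mul_inv_eq_iff_eq_mul]
  have hy' : y * x * y⁻¹ = x⁻¹ := (hconj y).resolve_left
    fun h => hy (mul_inv_eq_iff_eq_mul.1 h)
  refine index_eq_two_iff.2 ⟨y, fun g => ?_⟩
  rw [key, key]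
  have e : g * y * x * (g * y)⁻¹ = (g * x * g⁻¹)⁻¹ := by
    rw [show g * y * x * (g * y)⁻¹ = g * (y * x * y⁻¹) * g⁻¹ by group, hy']; group
  rw [e]
  rcases hconj g with h | h
  · rw [h]; exact Or.inr ⟨rfl, hne⟩
  · rw [h, inv_inv]; exact Or.inl ⟨rfl, hne⟩

theorem index_centralizer_four [Finite G] {x y : G} (hx : orderOf x = 4)
    (hn : (zpowers x).Normal) (hy : ¬ Commute y x) : (centralizer ({x} : Set G)).index = 2 :=
  index_centralizer_two (fun g => conj_four hx (hn.conj_mem _ (mem_zpowers x) g)) hy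

theorem mem_zpowers_three [Finite G] {x u : G} (hx : orderOf x = 3) (hu : u ∈ zpowers x) :
    u = 1 ∨ u = x ∨ u = x⁻¹ := by
  obtain ⟨k, hk⟩ := mem_powers_iff_mem_zpowers.2 hu
  simp only at hk
  rw [← pow_mod_orderOf, hx] at hk
  have h4 : x ^ 3 = 1 := hx ▸ pow_orderOf_eq_one x
  have h3 : x ^ 2 = x⁻¹ := eq_inv_of_mul_eq_one_left (by rw [← pow_succ, h4])
  have : k % 3 < 3 := Nat.mod_lt _ (by norm_num)
  interval_cases k % 3
  · left; simpa using hk.symm
  · right; left; simpa using hk.symm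
  · right; right; rw [← hk, h3]

theorem conj_three [Finite G] {x g : G} (hx : orderOf x = 3) (hg : g * x * g⁻¹ ∈ zpowers x) :
    g * x * g⁻¹ = x ∨ g * x * g⁻¹ = x⁻¹ := by
  refine (mem_zpowers_three hx hg).resolve_left fun h => ?_
  have : x = 1 := by simpa using h
  rw [this, orderOf_one] at hx
  omega

theorem ded_min [Finite G] (hall : ∀ x : G, (zpowers x).Normal) {p e b : ℕ} (hp : p.Prime) {x y : G}
    (hx : orderOf x = p ^ e) (hy : orderOf y = p ^ b)
    (hmin : ∀ (x' : G) (e' : ℕ), orderOf x' = p ^ e' → e' < e → x' ∈ center G)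
    (hxy : ¬ Commute x y) : p = 2 ∧ b = 2 ∧ e = 2 ∧ x ^ 2 = y ^ 2 := by
  have hyc : y ∉ center G := fun h => hxy (mem_center_iff.1 h x)
  have hxc : x ∉ center G := fun h => hxy (mem_center_iff.1 h y).symm
  have heb : e ≤ b := by
    by_contra h
    exact hyc (hmin y b hy (by omega))
  have he : 1 ≤ e := by
    by_contra h
    have : e = 0 := by omega
    rw [this, pow_zero, orderOf_eq_one_iff] at hx
    exact hxc (hx ▸ one_mem _)
  have hxp : x ^ p ∈ center G := hmin _ (e - 1)
    (by simpa using orderOf_pow_pow hp hx he) (by omega)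
  set c := y⁻¹ * x⁻¹ * y * x with hc
  have hcx : c ∈ zpowers x := comm_mem_left (hall x) y
  have hcy : c ∈ zpowers y := comm_mem_right (hall y) x
  have cx : Commute c x := commute_of_mem_zpowers hcx (Commute.refl x)
  have hcp : c ^ p = 1 := by
    have h1 : y⁻¹ * x⁻¹ * y = c * x⁻¹ := by rw [hc]; group
    have h2 : (y⁻¹ * x⁻¹ * y) ^ p = (x ^ p)⁻¹ := by
      have : y⁻¹ * x⁻¹ * y = y⁻¹ * x⁻¹ * y⁻¹⁻¹ := by rw [inv_inv]
      rw [this, conj_pow, inv_pow, mem_center_iff.1 (inv_mem hxp) y⁻¹]
      group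
    rw [h1, cx.inv_right.mul_pow, inv_pow] at h2
    simpa using h2
  have h2 : p = 2 ∧ b = 2 := by
    by_contra h2
    obtain ⟨-, j, hj⟩ := lemK hp (swap_comm x y) (comm_ne_one hxy) hcp hcx hcy hx hy heb h2
    obtain ⟨d, hd, ho⟩ := exists_order_of_pow_eq_one hp hj
    have h3 : Commute y _ := mem_center_iff.1 (hmin _ d ho (by omega)) y
    apply hxy
    have h4 := h3.mul_right ((Commute.refl y).pow_right (j * p ^ (b - e))).inv_right
    simpa using h4.symm
  obtain ⟨rfl, rfl⟩ := h2
  have he2 : e = 2 := by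
    by_contra h
    have : e = 1 := by omega
    rw [this, pow_one] at hx
    exact hxc (central_of_order_le_two (hall x) (hx ▸ pow_orderOf_eq_one x))
  subst he2
  refine ⟨rfl, rfl, rfl, ?_⟩
  rw [← eq_sq_of_order_four hx hcx (comm_ne_one hxy) hcp,
    ← eq_sq_of_order_four hy hcy (comm_ne_one hxy) hcp]

theorem ded_exists [Finite G] (hall : ∀ x : G, (zpowers x).Normal) {p e : ℕ} (hp : p.Prime) {x : G}
    (hx : orderOf x = p ^ e) (hxc : x ∉ center G) :
    ∃ (y : G) (b : ℕ), orderOf y = p ^ b ∧ ¬ Commute x y := by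
  obtain ⟨g, hg⟩ : ∃ g : G, g ∉ centralizer ({x} : Set G) := by
    by_contra hcon
    push Not at hcon
    exact hxc (mem_center_iff.2 fun g => mem_centralizer_singleton_iff.1 (hcon g))
  obtain ⟨y, -, hy, q, b, hq, hyo⟩ := exists_primePow_part _ g hg
  have hyz : ¬ Commute x y := fun h => hy (mem_centralizer_singleton_iff.2 h.symm.eq)
  have : q = p := by
    by_contra hqp
    refine hyz (commute_of_coprime_normal (hall x) (hall y) ?_)
    rw [hx, hyo]
    exact (Nat.Coprime.pow _ _ ((Nat.coprime_primes hq hp).2 hqp)).symm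
  exact ⟨y, b, this ▸ hyo, hyz⟩

theorem ded_pair [Finite G] (hall : ∀ x : G, (zpowers x).Normal) {p e : ℕ} (hp : p.Prime) {x : G}
    (hx : orderOf x = p ^ e) (hxc : x ∉ center G) :
    p = 2 ∧ (∀ (x' : G) (e' : ℕ), orderOf x' = 2 ^ e' → e' < 2 → x' ∈ center G) ∧
      ∃ x y : G, orderOf x = 4 ∧ orderOf y = 4 ∧ ¬ Commute x y := by
  classical
  have hex : ∃ e, ∃ x : G, orderOf x = p ^ e ∧ x ∉ center G := ⟨e, x, hx, hxc⟩
  obtain ⟨x0, h1, h2⟩ := Nat.find_spec hex
  have hmin : ∀ (x' : G) (e' : ℕ), orderOf x' = p ^ e' → e' < Nat.find hex → x' ∈ center G :=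
    fun x' e' h3 h4 => by
      by_contra h5
      exact Nat.find_min hex h4 ⟨x', h3, h5⟩
  obtain ⟨y, b, h3, h4⟩ := ded_exists hall hp h1 h2
  obtain ⟨rfl, rfl, h5, -⟩ := ded_min hall hp h1 h3 hmin h4
  rw [h5] at h1 hmin
  exact ⟨rfl, hmin, x0, y, h1, h3, h4⟩

theorem index_center_of_dedekind [Finite G] (hall : ∀ x : G, (zpowers x).Normal)
    (hna : ¬ ∀ a b : G, a * b = b * a) : (center G).index = 4 := by
  obtain ⟨g, hg⟩ : ∃ g : G, g ∉ center G := by
    by_contra h
    push Not at h
    exact hna fun a b => mem_center_iff.1 (h b) a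
  obtain ⟨g', -, hg', q, e, hq, ho⟩ := exists_primePow_part _ g hg
  obtain ⟨-, hmin, x, y, hx, hy, hxy⟩ := ded_pair hall hq ho hg'
  have ix := index_centralizer_four hx (hall x) fun h => hxy h.symm
  have iy := index_centralizer_four hy (hall y) hxy
  have hle : centralizer ({x} : Set G) ⊓ centralizer ({y} : Set G) ≤ center G := by
    intro a ha
    by_contra hac
    obtain ⟨a', ha', hac', r, d, hr, hd⟩ := exists_primePow_part _ a hac
    obtain ⟨rfl, -⟩ := ded_pair hall hr hd hac'
    have h1 := zpowers_le_of_mem ha ha'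
    have hax : Commute a' x := mem_centralizer_singleton_iff.1 h1.1
    have hay : Commute a' y := mem_centralizer_singleton_iff.1 h1.2
    have h2 : (a' * y) ^ 2 ^ (d + 2) = 1 := by
      rw [hay.mul_pow, pow_add, pow_mul, ← hd, pow_orderOf_eq_one, one_pow, mul_comm (orderOf a'),
        pow_mul, show 2 ^ 2 = 4 by norm_num, ← hy, pow_orderOf_eq_one, one_pow, one_mul]
    obtain ⟨b, -, hb⟩ := exists_order_of_pow_eq_one Nat.prime_two h2
    have h3 : ¬ Commute x (a' * y) := fun h => hxy (by
      simpa using hax.symm.inv_right.mul_right h)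
    obtain ⟨-, -, -, h4⟩ := ded_min hall Nat.prime_two (e := 2) hx hb hmin h3
    obtain ⟨-, -, -, h5⟩ := ded_min hall Nat.prime_two (e := 2) (b := 2) hx hy hmin hxy
    rw [h5, hay.mul_pow] at h4
    exact hac' (central_of_order_le_two (hall a') (by simpa using h4.symm))
  have h1 := index_antitone hle
  have h2 := index_inf_le (H := centralizer ({x} : Set G)) (K := centralizer ({y} : Set G))
  have h3 := two_mul_index_le (le_centralizer_of_le_center le_rfl x) (fun h => hxy
    (mem_center_iff.1 (h (mem_centralizer_singleton_iff.2 rfl)) y).symm)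
  rw [ix, iy] at h2
  omega

end Pool.Agent.Work.MP_7792ce_al
end
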