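import Mathlib

/-!
Transversal probability of a finite group.
-/

namespace Pool.Agent.Work.MP_7792ce_al

/-- The subsets of `G` that are both a left and a right transversal of `H`. -/
def twoSided {G : Type*} [Group G] (H : Subgroup G) : Set (Set G) :=
  {S | Subgroup.IsComplement S (H : Set G) ∧ Subgroup.IsComplement (H : Set G) S}

/-- `P_G(H)`: the number of two-sided transversals divided by `|H| ^ (G : H)`. -/
noncomputable def transProb {G : Type*} [Group G] (H : Subgroup G) : ℝ :=
  (Nat.card (twoSided H) : ℝ) / (Nat.card H : ℝ) ^ H.index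

/-- The transversal probability: the minimum of `P_G(H)` over all subgroups `H`. -/
noncomputable def tp (G : Type*) [Group G] : ℝ :=
  ⨅ H : Subgroup G, transProb H

/-- The relators `a ^ 3`, `b ^ (2 ^ n)`, `b⁻¹ a b a`, with `a` the generator `0` and `b` the
generator `1`. -/
def relG (n : ℕ) : Set (FreeGroup (Fin 2)) :=
  {FreeGroup.of 0 ^ 3, FreeGroup.of 1 ^ (2 ^ n),
    (FreeGroup.of 1)⁻¹ * FreeGroup.of 0 * FreeGroup.of 1 * FreeGroup.of 0}

end Pool.Agent.Work.MP_7792ce_al
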