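import Pool.Agent.Work.MP_7792ce_al.Special

-- merged part: Pool.Agent.Work.MP_7792ce_al.Gn
section
/-!
The groups `G_n`.
-/

namespace Pool.Agent.Work.MP_7792ce_al

open Subgroup

variable {G : Type*} [Group G]

theorem conj_of_rel {a b : G} (h : b⁻¹ * a * b * a = 1) : b * a * b⁻¹ = a⁻¹ := by
  have h1 : a = b * a⁻¹ * b⁻¹ := by
    rw [← mul_eq_one_iff_eq_inv.1 h]; group
  rw [eq_inv_iff_mul_eq_one]
  nth_rewrite 2 [h1]
  group

theorem normal_zpowers_of_rel {a b : G} (h : b⁻¹ * a * b * a = 1)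
    (hgen : closure {a, b} = ⊤) : (zpowers a).Normal := by
  rw [← normalizer_eq_top_iff, eq_top_iff, ← hgen, closure_le]
  rintro x (rfl | rfl)
  · exact le_normalizer (mem_zpowers _)
  · refine mem_normalizer_iff.2 fun y => ⟨?_, fun hy => ?_⟩
    · rintro ⟨k, rfl⟩
      simp only [← conj_zpow, conj_of_rel h]
      exact zpow_mem (inv_mem (mem_zpowers a)) k
    · obtain ⟨k, hk⟩ := hy
      have e : y = (x⁻¹ * a * x⁻¹⁻¹) ^ k := by
        simp only at hk
        rw [conj_zpow, hk]; group
      rw [e, inv_inv, mul_eq_one_iff_eq_inv.1 h]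
      exact zpow_mem (inv_mem (mem_zpowers a)) k

theorem normal_form {a b : G} (h : b⁻¹ * a * b * a = 1) (hgen : closure {a, b} = ⊤) (g : G) :
    ∃ t ∈ zpowers a, ∃ u ∈ zpowers b, t * u = g := by
  have := normal_zpowers_of_rel h hgen
  have h1 : zpowers a ⊔ zpowers b = ⊤ := by
    rw [eq_top_iff, ← hgen, closure_le]
    rintro x (rfl | rfl)
    · exact mem_sup_left (mem_zpowers _)
    · exact mem_sup_right (mem_zpowers _)
  have h2 : g ∈ ((zpowers a ⊔ zpowers b : Subgroup G) : Set G) := h1 ▸ mem_top g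
  rw [normal_mul] at h2
  exact h2

theorem mem_center_of_gen {a b z : G} (hgen : closure {a, b} = ⊤) (ha : Commute a z)
    (hb : Commute b z) : z ∈ center G := by
  have : centralizer ({z} : Set G) = ⊤ := by
    rw [eq_top_iff, ← hgen, closure_le]
    rintro x (rfl | rfl)
    · exact mem_centralizer_singleton_iff.2 ha
    · exact mem_centralizer_singleton_iff.2 hb
  exact mem_center_iff.2 fun g => mem_centralizer_singleton_iff.1 (this ▸ mem_top g)

theorem values_Gn [Finite G] {a b : G} {n : ℕ} (ha : a ^ 3 = 1) (ha1 : a ≠ 1)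
    (hb : b ^ 2 ^ n = 1) (h : b⁻¹ * a * b * a = 1) (hgen : closure {a, b} = ⊤) :
    tp G = 1 / 2 ∧ (commProb G : ℝ) = 1 / 2 := by
  have : Fact (Nat.Prime 3) := ⟨Nat.prime_three⟩
  have hoa : orderOf a = 3 := orderOf_eq_prime ha ha1
  have hT := normal_zpowers_of_rel h hgen
  have hba := conj_of_rel h
  have a4 : (a ^ 2) ^ 2 = a := by
    rw [← pow_mul, show 2 * 2 = 3 + 1 by rfl, pow_succ, ha, one_mul]
  have hnc : ¬ Commute b a := fun hc => ha1 (by
    have : a = a⁻¹ := by rw [← hba, hc.eq]; group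
    have h2 : a ^ 2 = 1 := by rw [sq]; nth_rewrite 1 [this]; simp
    rw [← a4, h2, one_pow])
  set A := centralizer ({a} : Set G) with hA
  have hAi : A.index = 2 :=
    index_centralizer_two (fun g => conj_three hoa (hT.conj_mem _ (mem_zpowers a) g)) hnc
  have hbA : b ∉ A := fun hh => hnc (mem_centralizer_singleton_iff.1 hh)
  have hTA : zpowers a ≤ A := zpowers_le_of_mem (mem_centralizer_singleton_iff.2 rfl)
  have hb2 : b ^ 2 ∈ center G := mem_center_of_gen hgen
    (mem_centralizer_singleton_iff.1 (sq_mem_of_index_two hAi b)).symm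
    ((Commute.refl b).pow_right 2)
  set Z := zpowers (b ^ 2) with hZ
  have hZc : Z ≤ center G := zpowers_le_of_mem hb2
  have hZA : Z ≤ A := le_centralizer_of_le_center hZc a
  obtain ⟨m, -, hm⟩ := exists_order_of_pow_eq_one Nat.prime_two hb
  have hm0 : m ≠ 0 := by
    rintro rfl
    rw [pow_zero, orderOf_eq_one_iff] at hm
    exact hbA (hm ▸ one_mem _)
  have hob2 : orderOf (b ^ 2) = 2 ^ (m - 1) := by
    simpa using orderOf_pow_pow Nat.prime_two hm (Nat.one_le_iff_ne_zero.2 hm0)
  have hcard : Nat.card G = 3 * 2 ^ m := by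
    have hd : Disjoint (zpowers a) (zpowers b) := by
      refine disjoint_of_coprime_natCard ?_
      rw [Nat.card_zpowers, Nat.card_zpowers, hoa, hm]
      exact Nat.Coprime.pow_right _ (by norm_num)
    have := (isComplement'_of_disjoint_and_mul_eq_univ hd (Set.eq_univ_of_forall fun g =>
      normal_form h hgen g)).card_mul_card
    rw [← this, Nat.card_zpowers, Nat.card_zpowers, hoa, hm]
  have hZi : Z.index = 6 := by
    have h1 := card_mul_index Z
    have h2 : Nat.card Z = 2 ^ (m - 1) := by rw [hZ, Nat.card_zpowers, hob2]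
    have h3 : 2 ^ m = 2 ^ (m - 1) * 2 := by rw [← pow_succ]; congr 1; omega
    rw [h2, hcard, h3] at h1
    exact Nat.eq_of_mul_eq_mul_left (Nat.two_pow_pos (m - 1)) (h1.trans (by ring))
  have hpar : ∀ u ∈ zpowers b, u ∈ Z ∨ ∃ j : ℕ, u = b * (b ^ 2) ^ j := fun u hu => by
    obtain ⟨k, rfl⟩ := mem_powers_iff_mem_zpowers.2 hu
    rcases Nat.even_or_odd' k with ⟨j, rfl | rfl⟩
    · left; simp only [pow_mul]; exact pow_mem (mem_zpowers _) _
    · right; exact ⟨j, by simp only [pow_succ' b (2 * j), pow_mul]⟩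
  have hAform : ∀ g ∈ A, ∃ t ∈ zpowers a, ∃ z ∈ Z, t * z = g := fun g hg => by
    obtain ⟨t, ht, u, hu, rfl⟩ := normal_form h hgen g
    rcases hpar u hu with h1 | ⟨j, rfl⟩
    · exact ⟨t, ht, u, h1, rfl⟩
    · rw [mul_mem_cancel_left (hTA ht), mul_mem_cancel_right
        (hZA (pow_mem (mem_zpowers _) _))] at hg
      exact absurd hg hbA
  have hout : ∀ g, g ∉ A → (centralizer ({g} : Set G)).index = 3 := fun g hg => by
    have hle := le_centralizer_of_le_center hZc g
    have h1 := two_mul_index_le hle fun hh => hg (hZA (hh (mem_centralizer_singleton_iff.2 rfl)))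
    have h2 : a ∉ centralizer ({g} : Set G) := fun hh => hg
      (mem_centralizer_singleton_iff.2 (mem_centralizer_singleton_iff.1 hh).symm)
    have h3 : (centralizer ({g} : Set G)).index ≠ 0 := index_ne_zero_of_finite
    have h4 : (centralizer ({g} : Set G)).index ≠ 1 := fun hh => h2
      (index_eq_one.1 hh ▸ mem_top a)
    have h5 : (centralizer ({g} : Set G)).index ≠ 2 := fun hh => h2
      (a4 ▸ pow_mem (sq_mem_of_index_two hh a) 2)
    omega
  constructor
  · refine tp_eq_half (fun K hK => ?_) (zpowers b) fun hn => hnc ?_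
    · have haK : a ∉ K := fun haK => hK ⟨fun k hk g => by
        have hTK : zpowers a ≤ K := zpowers_le_of_mem haK
        obtain ⟨t, ht, u, hu, rfl⟩ := normal_form h hgen k
        obtain ⟨t', ht', u', hu', rfl⟩ := normal_form h hgen g
        have hc : Commute u' u := commute_of_mem_zpowers hu'
          (commute_of_mem_zpowers hu (Commute.refl b)).symm
        have e : t' * u' * (t * u) * (t' * u')⁻¹ =
            (t' * u' * t * (t' * u')⁻¹) * (t' * (u * t'⁻¹ * u⁻¹)) * (t⁻¹ * (t * u)) := by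
          have : u' * u * u'⁻¹ = u := by rw [hc.eq]; group
          calc _ = (t' * u' * t * (t' * u')⁻¹) * (t' * (u' * u * u'⁻¹) * t'⁻¹) := by group
            _ = _ := by rw [this]; group
        rw [e]
        exact mul_mem (mul_mem (hTK (hT.conj_mem _ ht _)) (hTK (mul_mem ht'
          (hT.conj_mem _ (inv_mem ht') _)))) (mul_mem (hTK (inv_mem ht)) hk)⟩
      have hKA : ∀ g ∈ K, g ∈ A → g ∈ Z := fun g hgK hg => by
        obtain ⟨t, ht, z, hz, rfl⟩ := hAform g hg
        have hc : Commute t z := mem_center_iff.1 (hZc hz) t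
        have h1 : z ^ 2 ^ (m - 1) = 1 := by
          rw [← hob2, ← orderOf_dvd_iff_pow_eq_one]
          exact orderOf_dvd_of_mem_zpowers hz
        have h2 := pow_mem hgK (2 ^ (m - 1))
        rw [hc.mul_pow, h1, mul_one] at h2
        have h3 : t ∈ K := by
          have hcop : (2 ^ (m - 1)).Coprime (orderOf t) := Nat.Coprime.coprime_dvd_right
            (hoa ▸ orderOf_dvd_of_mem_zpowers ht) (Nat.Coprime.pow_left _ (by norm_num))
          obtain ⟨r, hr⟩ := exists_pow_eq_self_of_coprime hcop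
          exact hr ▸ pow_mem h2 r
        rcases mem_zpowers_three hoa ht with rfl | rfl | rfl
        · simpa using hz
        · exact absurd h3 haK
        · exact absurd (inv_mem_iff.1 h3) haK
      obtain ⟨k, hkK, hkA⟩ : ∃ k ∈ K, k ∉ A := by
        by_contra hc
        push Not at hc
        exact hK (normal_of_le_center fun g hg => hZc (hKA g hg (hc g hg)))
      have hk2 : ∃ j : ℕ, k ^ 2 = (b ^ 2) ^ (2 * j + 1) := by
        obtain ⟨t, ht, u, hu, rfl⟩ := normal_form h hgen k
        rcases hpar u hu with h1 | ⟨j, rfl⟩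
        · exact absurd (mul_mem (hTA ht) (hZA h1)) hkA
        · refine ⟨j, ?_⟩
          have hbt : b * t * b⁻¹ = t⁻¹ := by
            obtain ⟨i, rfl⟩ := ht
            simp only [← conj_zpow, hba, inv_zpow]
          have hc : Commute (t * b) ((b ^ 2) ^ j) := mem_center_iff.1 (pow_mem hb2 j) _
          have : (t * b) ^ 2 = b ^ 2 := by
            calc (t * b) ^ 2 = t * (b * t * b⁻¹) * b ^ 2 := by simp only [sq]; group
              _ = _ := by rw [hbt]; group
          rw [← mul_assoc, hc.mul_pow, this, ← pow_mul (b ^ 2), ← pow_succ', mul_comm j]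
      obtain ⟨j, hj⟩ := hk2
      have hZk : Z ≤ zpowers k := by
        have hcop : (2 * j + 1).Coprime (orderOf (b ^ 2)) := by
          rw [hob2]
          exact Nat.Coprime.pow_right _ (by simp)
        obtain ⟨r, hr⟩ := exists_pow_eq_self_of_coprime hcop
        refine zpowers_le_of_mem ?_
        rw [← hr, ← hj]
        exact pow_mem (pow_mem (mem_zpowers k) _) _
      have hKk : K = zpowers k := by
        refine le_antisymm (fun g hg => ?_) (zpowers_le_of_mem hkK)
        by_cases hgA : g ∈ A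
        · exact hZk (hKA g hg hgA)
        · have : g * k ∈ A := (mul_mem_iff_of_index_two hAi).2 (iff_of_false hgA hkA)
          exact (mul_mem_cancel_right (mem_zpowers k)).1 (hZk (hKA _ (mul_mem hg hkK) this))
      have hk1 : k ^ 2 ^ (n + 1) = 1 := by
        rw [pow_succ', pow_mul, hj, ← pow_mul, ← pow_mul, mul_comm, mul_comm (2 * j + 1),
          mul_assoc, pow_mul, hb, one_pow]
      obtain ⟨d, -, hd⟩ := exists_order_of_pow_eq_one Nat.prime_two hk1
      have hd0 : d ≠ 0 := by
        rintro rfl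
        rw [pow_zero, orderOf_eq_one_iff] at hd
        exact hkA (hd ▸ one_mem _)
      obtain ⟨d', rfl⟩ := Nat.exists_eq_succ_of_ne_zero hd0
      have hi := two_mul_index_le hZk fun hh => hkA (hZA (hh (mem_zpowers k)))
      rw [hKk] at hK ⊢
      exact transProb_half hd (normal_of_le_center (zpowers_le_of_mem (hj ▸ pow_mem hb2 _))) hK
        (by omega)
    · refine commute_of_coprime_normal hn hT ?_
      rw [hoa, hm]
      exact Nat.Coprime.pow_left _ (by norm_num)
  · classical
    have := Fintype.ofFinite G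
    have hci : (center G).index = 6 := by
      have h1 := two_mul_index_le (le_centralizer_of_le_center le_rfl b) fun hh =>
        hbA (le_centralizer_of_le_center le_rfl a (hh (mem_centralizer_singleton_iff.2 rfl)))
      have h2 := index_antitone hZc
      rw [hout b hbA] at h1
      omega
    have key : ∀ x : G, 1 / ((centralizer ({x} : Set G)).index : ℝ) =
        1 / 3 + (if (1 : G)⁻¹ * x ∈ A then 1 / 6 else 0) +
          (if (1 : G)⁻¹ * x ∈ center G then 1 / 2 else 0) := by
      intro x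
      simp only [inv_one, one_mul]
      by_cases hx : x ∈ center G
      · rw [if_pos hx, if_pos (le_centralizer_of_le_center le_rfl a hx),
          index_centralizer_of_central hx]
        norm_num
      · rw [if_neg hx]
        split_ifs with hxA
        · have hle : A ≤ centralizer ({x} : Set G) := fun g hg => by
            obtain ⟨t, ht, z, hz, rfl⟩ := hAform x hxA
            have h1 : Commute g a := mem_centralizer_singleton_iff.1 hg
            exact mem_centralizer_singleton_iff.2 ((commute_of_mem_zpowers ht h1.symm).symm.mul_right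
              (mem_center_iff.1 (hZc hz) g))
          have h2 := index_antitone hle
          have h3 : (centralizer ({x} : Set G)).index ≠ 0 := index_ne_zero_of_finite
          have h4 : (centralizer ({x} : Set G)).index ≠ 1 := fun h4 => hx (by
            rw [index_eq_one] at h4
            exact mem_center_iff.2 fun y => mem_centralizer_singleton_iff.1 (h4 ▸ mem_top y))
          have : (centralizer ({x} : Set G)).index = 2 := by omega
          rw [this]; norm_num
        · rw [hout x hxA]; norm_num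
    have h0 : (0 : ℝ) < Nat.card G := by exact_mod_cast Nat.card_pos
    have hc : (Nat.card (center G) : ℝ) * 6 = Nat.card G := by
      exact_mod_cast hci ▸ card_mul_index (center G)
    have hc2 : (Nat.card A : ℝ) * 2 = Nat.card G := by exact_mod_cast hAi ▸ card_mul_index A
    rw [cp_formula, Finset.sum_congr rfl fun x _ => key x, Finset.sum_add_distrib,
      Finset.sum_add_distrib, sum_ite_subgroup, sum_ite_subgroup,
      Finset.sum_const, Finset.card_univ, ← Nat.card_eq_fintype_card, nsmul_eq_mul,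
      div_eq_iff h0.ne']
    linarith only [hc, hc2]

theorem pres_rel (n : ℕ) :
    (PresentedGroup.of 0 : PresentedGroup (relG n)) ^ 3 = 1 ∧
    (PresentedGroup.of 1 : PresentedGroup (relG n)) ^ 2 ^ n = 1 ∧
    (PresentedGroup.of 1 : PresentedGroup (relG n))⁻¹ * PresentedGroup.of 0 * PresentedGroup.of 1 *
      PresentedGroup.of 0 = 1 ∧
    closure {(PresentedGroup.of 0 : PresentedGroup (relG n)), PresentedGroup.of 1} = ⊤ := by
  refine ⟨?_, ?_, ?_, ?_⟩
  · exact PresentedGroup.one_of_mem (rels := relG n) (x := FreeGroup.of 0 ^ 3) (by simp [relG])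
  · exact PresentedGroup.one_of_mem (rels := relG n) (x := FreeGroup.of 1 ^ 2 ^ n) (by simp [relG])
  · exact PresentedGroup.one_of_mem (rels := relG n)
      (x := (FreeGroup.of 1)⁻¹ * FreeGroup.of 0 * FreeGroup.of 1 * FreeGroup.of 0) (by simp [relG])
  · rw [← PresentedGroup.closure_range_of]
    congr 1
    ext x
    simp [Fin.exists_fin_two, eq_comm]

theorem lift_rel {a b : G} {n : ℕ} (ha : a ^ 3 = 1) (hb : b ^ 2 ^ n = 1)
    (h : b⁻¹ * a * b * a = 1) : ∀ r ∈ relG n, FreeGroup.lift ![a, b] r = 1 := by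
  rintro r (rfl | rfl | rfl)
  · simpa using ha
  · simpa using hb
  · simpa using h

theorem values_pres [Finite G] {n : ℕ} (hn : 1 ≤ n) (e : G ≃* PresentedGroup (relG n)) :
    tp G = 1 / 2 ∧ (commProb G : ℝ) = 1 / 2 := by
  have := Finite.of_equiv G e.toEquiv
  obtain ⟨h1, h2, h3, h4⟩ := pres_rel n
  rw [tp_congr e, commProb_congr e]
  refine values_Gn h1 (fun h => ?_) h2 h3 h4
  have h5 : (DihedralGroup.sr 0 : DihedralGroup 3) ^ 2 ^ n = 1 := by
    rw [show n = (n - 1) + 1 by omega, pow_succ', pow_mul,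
      show (DihedralGroup.sr 0 : DihedralGroup 3) ^ 2 = 1 by decide, one_pow]
  have := congrArg (PresentedGroup.toGroup (lift_rel (a := (DihedralGroup.r 1 : DihedralGroup 3))
    (by decide) h5 (by decide))) h
  rw [PresentedGroup.toGroup.of, map_one] at this
  exact absurd this (by decide)

theorem iso_pres [Finite G] {a b : G} {n : ℕ} (ha : a ^ 3 = 1) (hb : b ^ 2 ^ n = 1)
    (h : b⁻¹ * a * b * a = 1) (hgen : closure {a, b} = ⊤) (hc : Nat.card G = 3 * 2 ^ n) :
    Nonempty (G ≃* PresentedGroup (relG n)) := by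
  obtain ⟨h1, h2, h3, h4⟩ := pres_rel n
  have hs : Function.Surjective fun x : Fin 3 × Fin (2 ^ n) =>
      (PresentedGroup.of 0 : PresentedGroup (relG n)) ^ x.1.val * PresentedGroup.of 1 ^ x.2.val := by
    intro g
    obtain ⟨t, ht, u, hu, rfl⟩ := normal_form h3 h4 g
    obtain ⟨i, rfl⟩ := (isOfFinOrder_iff_pow_eq_one.2 ⟨3, by norm_num, h1⟩).mem_powers_iff_mem_zpowers.2 ht
    obtain ⟨j, rfl⟩ := (isOfFinOrder_iff_pow_eq_one.2
      ⟨2 ^ n, Nat.two_pow_pos n, h2⟩).mem_powers_iff_mem_zpowers.2 hu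
    exact ⟨(⟨i % 3, Nat.mod_lt _ (by norm_num)⟩, ⟨j % 2 ^ n, Nat.mod_lt _ (Nat.two_pow_pos n)⟩), by
      simp only [← pow_eq_pow_mod i h1, ← pow_eq_pow_mod j h2]⟩
  have := Finite.of_surjective _ hs
  have hsurj : Function.Surjective (PresentedGroup.toGroup (lift_rel ha hb h)) := by
    rw [← MonoidHom.range_eq_top, eq_top_iff, ← hgen, closure_le]
    rintro x (rfl | rfl)
    · exact ⟨PresentedGroup.of 0, PresentedGroup.toGroup.of _⟩
    · exact ⟨PresentedGroup.of 1, PresentedGroup.toGroup.of _⟩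
  refine ⟨(MulEquiv.ofBijective _ (hsurj.bijective_of_nat_card_le ?_)).symm⟩
  rw [hc]
  simpa using Nat.card_le_card_of_surjective _ hs

end Pool.Agent.Work.MP_7792ce_al
end

-- merged part: Pool.Agent.Work.MP_7792ce_al.Cases
section
/-!
The small cases and the numerical estimates.
-/

namespace Pool.Agent.Work.MP_7792ce_al

open Subgroup

variable {G : Type*} [Group G]

theorem ff_two : ff 2 = 1 / 2 := by norm_num [ff, Nat.factorial]

theorem ff_three : ff 3 = 2 / 9 := by norm_num [ff, Nat.factorial]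

theorem ff_nonneg (p : ℕ) : 0 ≤ ff p := by unfold ff; positivity

theorem ff_le {p : ℕ} (hp : 4 ≤ p) : ff p ≤ 24 / (p : ℝ) ^ 4 := by
  have key : ∀ k, 4 + k ≤ p → (4 + k).factorial ≤ 24 * p ^ k := by
    intro k
    induction k with
    | zero => intro _; simp [Nat.factorial]
    | succ k ih =>
      intro hk
      rw [← add_assoc, Nat.factorial_succ, pow_succ, ← mul_assoc, mul_comm]
      exact Nat.mul_le_mul (ih (by omega)) (by omega)
  obtain ⟨k, rfl⟩ := Nat.exists_eq_add_of_le hp
  have h1 : (((4 + k).factorial : ℕ) : ℝ) ≤ 24 * ((4 + k : ℕ) : ℝ) ^ k := by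
    exact_mod_cast key k le_rfl
  have h0 : (0 : ℝ) < ((4 + k : ℕ) : ℝ) := by positivity
  rw [ff, div_le_div_iff₀ (by positivity) (by positivity), pow_add]
  nlinarith only [h1, h0, pow_pos h0 4]

theorem two_div_le_phi {v : ℝ} (hv : 2 ≤ v) : 2 / v ≤ phi v := by
  rw [phi, div_le_div_iff₀ (by linarith) (by positivity)]
  nlinarith only [hv]

theorem num_five {p s : ℕ} (hp : 5 ≤ p) (hs : 1 ≤ s) :
    ff p ^ s < phi (2 * (p : ℝ) ^ 2 * s) := by
  obtain ⟨k, rfl⟩ := Nat.exists_eq_add_of_le' hs
  have hp' : (5 : ℝ) ≤ p := by exact_mod_cast hp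
  have h25 : (25 : ℝ) ≤ (p : ℝ) ^ 2 := by nlinarith only [hp']
  have hk : (0 : ℝ) ≤ k := Nat.cast_nonneg k
  have h1 := ff_le (p := p) (by omega)
  have h2 : ff p * (p : ℝ) ^ 2 < 1 := by
    refine (mul_le_mul_of_nonneg_right h1 (by positivity)).trans_lt ?_
    rw [div_mul_eq_mul_div, div_lt_one (by positivity)]
    nlinarith only [h25]
  have h3 : ff p ≤ 1 / 2 := by nlinarith only [h25, h2, ff_nonneg p]
  have h4 : ((k : ℝ) + 1) * ff p ^ k ≤ 1 := by
    have h5 : ((k : ℝ) + 1) ≤ 2 ^ k := by exact_mod_cast Nat.lt_two_pow_self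
    calc ((k : ℝ) + 1) * ff p ^ k ≤ 2 ^ k * (1 / 2) ^ k :=
          mul_le_mul h5 (pow_le_pow_left₀ (ff_nonneg p) h3 k) (pow_nonneg (ff_nonneg p) k)
            (by positivity)
      _ = 1 := by rw [← mul_pow]; norm_num
  refine lt_of_lt_of_le ?_ (two_div_le_phi (by push_cast; nlinarith only [h25]))
  rw [lt_div_iff₀ (by positivity), pow_succ]
  push_cast
  have h6 : 0 ≤ ff p * (p : ℝ) ^ 2 := mul_nonneg (ff_nonneg p) (by positivity)
  nlinarith only [h2, h4, h6, mul_le_mul_of_nonneg_right h4 h6]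

theorem num_five' {p s : ℕ} (hp : 5 ≤ p) (hs : 2 ≤ s) :
    ff p ^ s * (2 * (p : ℝ) * s) ^ 2 < 1 := by
  obtain ⟨k, rfl⟩ := Nat.exists_eq_add_of_le' hs
  have hp' : (5 : ℝ) ≤ p := by exact_mod_cast hp
  have h25 : (25 : ℝ) ≤ (p : ℝ) ^ 2 := by nlinarith only [hp']
  have h1 := ff_le (p := p) (by omega)
  have h2 : ff p * (p : ℝ) ^ 2 ≤ 1 := by
    refine (mul_le_mul_of_nonneg_right h1 (by positivity)).trans ?_
    rw [div_mul_eq_mul_div, div_le_one (by positivity)]
    nlinarith only [h25]
  have h3 : ff p ≤ 1 / 25 := by nlinarith only [h25, h2, ff_nonneg p]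
  have h4 : ((k : ℝ) + 2) ^ 2 * ff p ^ k ≤ 4 := by
    have h5 : ∀ k : ℕ, (k + 2) ^ 2 ≤ 4 * 25 ^ k := by
      intro k
      induction k with
      | zero => simp
      | succ k ih =>
        rw [pow_succ 25]
        have : (k + 1 + 2) ^ 2 ≤ 25 * (k + 2) ^ 2 := by nlinarith only [Nat.zero_le (k ^ 2), Nat.zero_le k]
        omega
    have h6 : ((k : ℝ) + 2) ^ 2 ≤ 4 * 25 ^ k := by exact_mod_cast h5 k
    calc ((k : ℝ) + 2) ^ 2 * ff p ^ k ≤ 4 * 25 ^ k * (1 / 25) ^ k :=
          mul_le_mul h6 (pow_le_pow_left₀ (ff_nonneg p) h3 k) (pow_nonneg (ff_nonneg p) k)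
            (by positivity)
      _ = 4 := by rw [mul_assoc, ← mul_pow]; norm_num
  have h6 : 0 ≤ ff p * (p : ℝ) ^ 2 := mul_nonneg (ff_nonneg p) (by positivity)
  have h7 : ff p * (ff p * (p : ℝ) ^ 2) ≤ 1 / 25 := by nlinarith only [h25, h2, h6, ff_nonneg p]
  have h8 := mul_le_mul h4 h7 (mul_nonneg (ff_nonneg p) h6) (by norm_num)
  push_cast
  calc ff p ^ (k + 2) * (2 * (p : ℝ) * (k + 2)) ^ 2
      = 4 * (((k : ℝ) + 2) ^ 2 * ff p ^ k * (ff p * (ff p * (p : ℝ) ^ 2))) := by ring
    _ < 1 := by linarith only [h8]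

theorem num_three {s : ℕ} (hs : 2 ≤ s) : ff 3 ^ s < phi (18 * s) := by
  have h1 : ∀ k : ℕ, 2 ^ (k + 2) * (9 * (k + 2)) < 9 ^ (k + 2) := by
    intro k
    induction k with
    | zero => norm_num
    | succ k ih => rw [pow_succ 9, pow_succ 2]; nlinarith only [ih, Nat.two_pow_pos (k + 2)]
  obtain ⟨k, rfl⟩ := Nat.exists_eq_add_of_le' hs
  have h2 : (2 : ℝ) ^ (k + 2) * (9 * (k + 2)) < 9 ^ (k + 2) := by exact_mod_cast h1 k
  have hk : (0 : ℝ) ≤ k := Nat.cast_nonneg k
  refine lt_of_lt_of_le ?_ (two_div_le_phi (by push_cast; nlinarith only []))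
  rw [ff_three, div_pow, div_lt_div_iff₀ (by positivity) (by positivity)]
  push_cast
  linarith

theorem num_three' {s : ℕ} (hs : 5 ≤ s) : ff 3 ^ s * (6 * (s : ℝ)) ^ 2 < 1 := by
  have h1 : ∀ k : ℕ, 2 ^ (k + 5) * (6 * (k + 5)) ^ 2 < 9 ^ (k + 5) := by
    intro k
    induction k with
    | zero => norm_num
    | succ k ih =>
      rw [add_right_comm k 1 5, pow_succ 9, pow_succ 2]
      have : 2 * (6 * (k + 5 + 1)) ^ 2 ≤ 9 * (6 * (k + 5)) ^ 2 := by
        nlinarith only [Nat.zero_le (k ^ 2), Nat.zero_le k]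
      nlinarith only [ih, this, Nat.two_pow_pos (k + 5)]
  obtain ⟨k, rfl⟩ := Nat.exists_eq_add_of_le' hs
  have h2 : (2 : ℝ) ^ (k + 5) * (6 * (k + 5)) ^ 2 < 9 ^ (k + 5) := by exact_mod_cast h1 k
  rw [ff_three, div_pow, div_mul_eq_mul_div, div_lt_one (by positivity)]
  push_cast
  linarith

theorem num_two {s : ℕ} (hs : 4 ≤ s) : ff 2 ^ s < phi (8 * s) := by
  rcases hs.eq_or_lt with rfl | hs
  · rw [ff_two, phi]; norm_num
  have h1 : ∀ k : ℕ, 4 * (k + 5) < 2 ^ (k + 5) := by
    intro k
    induction k with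
    | zero => norm_num
    | succ k ih => rw [add_right_comm k 1 5, pow_succ 2]; omega
  obtain ⟨k, rfl⟩ := Nat.exists_eq_add_of_le' (show 5 ≤ s from hs)
  have h2 : (4 : ℝ) * (k + 5) < 2 ^ (k + 5) := by exact_mod_cast h1 k
  have hk : (0 : ℝ) ≤ k := Nat.cast_nonneg k
  refine lt_of_lt_of_le ?_ (two_div_le_phi (by push_cast; nlinarith only []))
  rw [ff_two, div_pow, div_lt_div_iff₀ (by positivity) (by positivity)]
  push_cast
  rw [one_pow]
  linarith

theorem index_zpowers_pow [Finite G] {h : G} {p a : ℕ} (hp : p.Prime)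
    (ha : orderOf h = p ^ (a + 1)) : (zpowers (h ^ p)).index = p * (zpowers h).index := by
  have h1 := card_mul_index (zpowers (h ^ p))
  have h2 := card_mul_index (zpowers h)
  have ho : orderOf (h ^ p) = p ^ a := by simpa using orderOf_pow_pow (i := 1) hp ha (by omega)
  rw [Nat.card_zpowers, ho] at h1
  rw [Nat.card_zpowers, ha, ← h1, pow_succ, mul_assoc] at h2
  exact (Nat.eq_of_mul_eq_mul_left (pow_pos hp.pos a) h2).symm

theorem not_mem_zpowers_of_order {h t : G} {p q a : ℕ} (hp : p.Prime) (hq : q.Prime) (hpq : q ≠ p)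
    (ha : orderOf h = p ^ a) (ht : orderOf t = q) : t ∉ zpowers h := fun hm => by
  have := orderOf_dvd_of_mem_zpowers hm
  rw [ha, ht] at this
  exact hpq ((Nat.prime_dvd_prime_iff_eq hq hp).1 (hq.dvd_of_dvd_pow this))

theorem mem_normalizer_zpowers [Finite G] {h g : G} (h1 : g * h * g⁻¹ ∈ zpowers h) :
    g ∈ normalizer (zpowers h : Set G) := by
  refine mem_normalizer_fintype ?_
  rintro _ ⟨j, rfl⟩
  simp only [← conj_zpow]
  exact zpow_mem h1 j

theorem case_three [Finite G] {h : G} {a : ℕ} (ha : orderOf h = 2 ^ (a + 1))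
    (hc : h ^ 2 ∈ center G) (hn : (zpowers h).index = 6 ∧ tp G ≤ 1 / 4 ∨
      (zpowers h).index = 12 ∧ tp G ≤ 1 / 8) : tp G < commProb G := by
  have : Fact (Nat.Prime 3) := ⟨Nat.prime_three⟩
  have hcard := card_mul_index (zpowers h)
  rw [Nat.card_zpowers, ha] at hcard
  obtain ⟨t, ht⟩ := exists_prime_orderOf_dvd_card' (G := G) 3 (by
    rw [← hcard]
    rcases hn with ⟨h1, -⟩ | ⟨h1, -⟩ <;> rw [h1] <;> exact Dvd.dvd.mul_left (by norm_num) _)
  have hZ : zpowers (h ^ 2) ≤ center G := zpowers_le_of_mem hc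
  have hZi := index_zpowers_pow Nat.prime_two ha
  by_cases htn : (zpowers t).Normal
  · have hi : (centralizer ({t} : Set G)).index ≤ 2 := by
      by_cases htc : t ∈ center G
      · rw [index_centralizer_of_central htc]; norm_num
      · obtain ⟨y, hy⟩ : ∃ y, ¬ Commute y t := by
          by_contra hcon
          push Not at hcon
          exact htc (mem_center_iff.2 hcon)
        exact (index_centralizer_two
          (fun g => conj_three ht (htn.conj_mem _ (mem_zpowers t) g)) hy).le
    have hi0 : (0 : ℝ) < (centralizer ({t} : Set G)).index := by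
      exact_mod_cast Nat.pos_of_ne_zero index_ne_zero_of_finite
    have hi2 : ((centralizer ({t} : Set G)).index : ℝ) ≤ 2 := by exact_mod_cast hi
    have htZ : t ∉ zpowers (h ^ 2) := fun hm => not_mem_zpowers_of_order Nat.prime_two
      Nat.prime_three (by norm_num) ha ht (zpowers_le_of_mem (pow_mem (mem_zpowers h) 2) hm)
    have := cp_ge_bonus _ hZ t (1 / 2 - 2 / ((zpowers (h ^ 2)).index : ℝ))
      (fun hm => absurd hm htZ) (by
        rw [add_sub_cancel]
        exact one_div_le_one_div_of_le hi0 hi2)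
    rcases hn with ⟨h1, h2⟩ | ⟨h1, h2⟩ <;> rw [hZi, h1] at this <;> norm_num at this <;> linarith only [h2, this]
  · obtain ⟨s, h1, h2⟩ := transProb_cyclic t (a := 0) Nat.prime_three (by simpa using ht)
      (by rw [← ht, pow_orderOf_eq_one, zpowers_one_eq_bot]; infer_instance)
    have h3 := tp_le (zpowers t)
    rw [h1, ff_three] at h3
    have h4 : (normalizer (zpowers t : Set G)).index ≠ 1 := fun h4 =>
      htn (normalizer_eq_top_iff.1 (index_eq_one.1 h4))
    have h5 : (normalizer (zpowers t : Set G)).index ≠ 0 := index_ne_zero_of_finite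
    have h6 := card_mul_index (normalizer (zpowers t : Set G))
    have h7 : Nat.card (normalizer (zpowers t : Set G)) * 2 ≤ Nat.card G :=
      h6 ▸ Nat.mul_le_mul_left _ (by omega)
    have h8 : 2 ≤ 2 ^ (a + 1) := Nat.le_self_pow (by omega) 2
    rcases hn with ⟨h9, -⟩ | ⟨h9, -⟩
    · have h10 := cp_ge _ hZ (v := 12) (by norm_num) (by rw [hZi, h9]; norm_num)
      have h11 : (2 / 9 : ℝ) ^ s ≤ (2 / 9) ^ 1 :=
        pow_le_pow_of_le_one (by norm_num) (by norm_num) (by rw [h9] at hcard; omega)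
      norm_num [phi] at h10 h11
      linarith only [h3, h10, h11]
    · have h10 := cp_ge _ hZ (v := 24) (by norm_num) (by rw [hZi, h9]; norm_num)
      have h11 : (2 / 9 : ℝ) ^ s ≤ (2 / 9) ^ 2 :=
        pow_le_pow_of_le_one (by norm_num) (by norm_num) (by rw [h9] at hcard; omega)
      norm_num [phi] at h10 h11
      linarith only [h3, h10, h11]

theorem case_Gn [Finite G] {h : G} {a : ℕ} (ha : orderOf h = 2 ^ (a + 1))
    (hc : h ^ 2 ∈ center G) (hn : (zpowers h).index = 3) (hnn : ¬ (zpowers h).Normal) :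
    Nonempty (G ≃* PresentedGroup (relG (a + 1))) := by
  have : Fact (Nat.Prime 3) := ⟨Nat.prime_three⟩
  have hcard := card_mul_index (zpowers h)
  rw [Nat.card_zpowers, ha, hn] at hcard
  obtain ⟨t, ht⟩ := exists_prime_orderOf_dvd_card' (G := G) 3 (hcard ▸ dvd_mul_left _ _)
  have ht3 : t ^ 3 = 1 := ht ▸ pow_orderOf_eq_one t
  have hZ : zpowers (h ^ 2) ≤ center G := zpowers_le_of_mem hc
  have hZi := index_zpowers_pow Nat.prime_two ha
  rw [hn] at hZi
  have htH : t ∉ zpowers h :=
    not_mem_zpowers_of_order Nat.prime_two Nat.prime_three (by norm_num) ha ht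
  have hZH : zpowers (h ^ 2) ≤ zpowers h := zpowers_le_of_mem (pow_mem (mem_zpowers h) 2)
  have hgen : closure {t, h} = ⊤ := by
    have h1 : zpowers h ≤ closure {t, h} := zpowers_le_of_mem (subset_closure (by simp))
    have h2 := two_mul_index_le h1 fun hh => htH (hh (subset_closure (by simp)))
    have h3 : (closure {t, h}).index ≠ 0 := index_ne_zero_of_finite
    rw [← index_eq_one]
    omega
  have hth : ¬ Commute h t := fun hcm => hnn (normal_of_le_center
    (zpowers_le_of_mem (mem_center_of_gen hgen hcm.symm (Commute.refl h))))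
  have hZn := normal_of_le_center hZ
  set K := zpowers t ⊔ zpowers (h ^ 2) with hK
  have hKi : K.index = 2 := by
    have h1 : 2 * K.index ≤ _ := two_mul_index_le (le_sup_right : _ ≤ K) fun hh =>
      htH (hZH (hh (mem_sup_left (mem_zpowers t))))
    have h2 : K.index ≠ 0 := index_ne_zero_of_finite
    have h3 : K.index ≠ 1 := fun h3 => by
      have h4 : K ≤ centralizer {t} := sup_le
        (zpowers_le_of_mem (mem_centralizer_singleton_iff.2 rfl)) (le_centralizer_of_le_center hZ t)
      exact hth (mem_centralizer_singleton_iff.1 (h4 (index_eq_one.1 h3 ▸ mem_top h)))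
    have h4 : K.index ≠ 3 := fun h4 => by
      have h5 := card_mul_index K
      rw [h4, ← hcard] at h5
      have h6 : 3 ∣ Nat.card K := ht ▸ orderOf_dvd_natCard K (mem_sup_left (mem_zpowers t))
      rw [Nat.eq_of_mul_eq_mul_right (by norm_num) h5] at h6
      have := Nat.prime_three.dvd_of_dvd_pow h6
      omega
    omega
  have h1 : h * t * h⁻¹ ∈ (K : Set G) :=
    (normal_of_index_eq_two hKi).conj_mem _ (mem_sup_left (mem_zpowers t)) h
  rw [hK, mul_normal] at h1
  obtain ⟨t', ht', z, hz, e⟩ := h1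
  simp only at e
  have hz1 : z = 1 := by
    have h2 : t' ^ 3 = 1 := by
      rw [← orderOf_dvd_iff_pow_eq_one, ← ht]
      exact orderOf_dvd_of_mem_zpowers ht'
    have h3 : (t' * z) ^ 3 = 1 := by rw [e, conj_pow, ht3]; simp
    rw [Commute.mul_pow (mem_center_iff.1 (hZ hz) t'), h2, one_mul] at h3
    by_contra hne
    exact not_mem_zpowers_of_order Nat.prime_two Nat.prime_three (by norm_num) ha
      (orderOf_eq_prime h3 hne) (hZH hz)
  rw [hz1, mul_one] at e
  have h2 := (conj_three ht (e ▸ ht')).resolve_left fun hh => hth (mul_inv_eq_iff_eq_mul.1 hh)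
  refine iso_pres ht3 (ha ▸ pow_orderOf_eq_one h) ?_ hgen (by rw [← hcard, mul_comm])
  calc h⁻¹ * t * h * t = h⁻¹ * (t * (h * t * h⁻¹)) * h := by group
    _ = 1 := by rw [h2]; group

theorem case_two [Finite G] {h : G} {a : ℕ} (ha : orderOf h = 2 ^ (a + 1))
    (hmin : ∀ x : G, orderOf x < 2 ^ (a + 1) → (zpowers x).Normal)
    (hc : h ^ 2 ∈ center G) (hn : (zpowers h).index = 4 ∨ (zpowers h).index = 8)
    (hN : (normalizer (zpowers h : Set G)).index = 2) (hZ : center G ≤ zpowers (h ^ 2)) :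
    Nonempty (G ≃* QuaternionGroup 4) := by
  have : Fact (Nat.Prime 2) := ⟨Nat.prime_two⟩
  have hcard := card_mul_index (zpowers h)
  rw [Nat.card_zpowers, ha] at hcard
  have hZH : zpowers (h ^ 2) ≤ zpowers h := zpowers_le_of_mem (pow_mem (mem_zpowers h) 2)
  have hZc : zpowers (h ^ 2) ≤ center G := zpowers_le_of_mem hc
  set N := normalizer (zpowers h : Set G) with hNdef
  have hNn := normal_of_index_eq_two hN
  have hhN : h ∈ N := le_normalizer (mem_zpowers h)
  have ha0 : a ≠ 0 := by
    rintro rfl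
    have hG : IsPGroup 2 G := by
      rcases hn with h1 | h1 <;> rw [h1] at hcard
      · exact IsPGroup.of_card (n := 3) hcard.symm
      · exact IsPGroup.of_card (n := 4) hcard.symm
    have : Nontrivial G := Finite.one_lt_card_iff_nontrivial.1 (by omega)
    have := hG.center_nontrivial
    obtain ⟨⟨x, hx⟩, hx1⟩ := exists_ne (1 : center G)
    have h2 : h ^ 2 = 1 := by simpa [ha] using pow_orderOf_eq_one h
    rw [h2, zpowers_one_eq_bot] at hZ
    exact hx1 (Subtype.ext (mem_bot.1 (hZ hx)))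
  have hinv : ∀ x : G, x ^ 2 = 1 → x ∈ zpowers (h ^ 2) := fun x hx =>
    hZ (central_of_order_le_two (hmin x ((orderOf_le_of_pow_eq_one (by norm_num) hx).trans_lt
      (by
        calc 2 = 2 ^ 1 := rfl
          _ < _ := Nat.pow_lt_pow_right (by norm_num) (by omega)))) hx)
  set z := h ^ 2 ^ a with hz
  have hoz : orderOf z = 2 := by simpa using orderOf_pow_pow Nat.prime_two ha (Nat.le_succ a)
  have hz2 : z ^ 2 = 1 := hoz ▸ pow_orderOf_eq_one z
  have hzc : z ∈ center G := hZc (hinv z hz2)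
  have huniq : ∀ x : G, x ^ 2 = 1 → x = 1 ∨ x = z := fun x hx => by
    obtain ⟨k, hk⟩ := mem_powers_iff_mem_zpowers.2
      (mem_zpowers_of_order (pow_mem (mem_zpowers h) _) (hZH (hinv x hx)) hoz hx)
    simp only at hk
    rw [← pow_mod_orderOf, hoz] at hk
    rcases Nat.mod_two_eq_zero_or_one k with h1 | h1 <;> rw [h1] at hk
    · left; simpa using hk.symm
    · right; simpa using hk.symm
  obtain ⟨g, hg⟩ : ∃ g, g ∉ N := by
    by_contra hcon
    push Not at hcon
    rw [index_eq_one.2 (eq_top_iff.2 fun x _ => hcon x)] at hN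
    omega
  set h' := g * h * g⁻¹ with hh'
  have hh'N : h' ∈ N := hNn.conj_mem _ hhN g
  have hh'H : h' ∉ zpowers h := fun hm => hg (mem_normalizer_zpowers hm)
  have hsq : ∀ y : G, (y * h * y⁻¹) ^ 2 = h ^ 2 := fun y => by
    rw [conj_pow, mem_center_iff.1 hc y]; group
  have hu : h'⁻¹ * h * h' = z * h := by
    have h1 : h'⁻¹ * h * h'⁻¹⁻¹ ∈ zpowers h :=
      (mem_normalizer_iff.1 (inv_mem hh'N) h).1 (mem_zpowers h)
    have h2 : (h'⁻¹ * h * h'⁻¹⁻¹ * h⁻¹) ^ 2 = 1 := by
      rw [(commute_of_mem_zpowers h1 (Commute.refl h)).inv_right.mul_pow, hsq]; group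
    rw [inv_inv] at h2
    rcases huniq _ h2 with h3 | h3
    · exfalso
      have h4 : Commute h h' := by
        have := mul_inv_eq_one.1 h3
        rw [mul_assoc, inv_mul_eq_iff_eq_mul] at this
        exact this
      have h5 : (h * h'⁻¹) ^ 2 = 1 := by rw [h4.inv_right.mul_pow, inv_pow, hsq]; group
      exact hh'H (inv_mem_iff.1 ((mul_mem_cancel_left (mem_zpowers h)).1 (hZH (hinv _ h5))))
    · exact mul_inv_eq_iff_eq_mul.1 h3
  have hnc : ¬ Commute h h' := fun hcm => by
    rw [mul_assoc, hcm.eq, inv_mul_cancel_left] at hu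
    rw [mul_eq_right.1 hu.symm, orderOf_one] at hoz
    omega
  have ha1 : a = 1 := by
    by_contra ha1
    have h1 : (h * h'⁻¹) ^ 2 = z := by
      calc (h * h'⁻¹) ^ 2 = h * (h'⁻¹ * h * h') * (h' ^ 2)⁻¹ := by simp only [sq]; group
        _ = z := by rw [hu, hsq, ← mul_assoc, mem_center_iff.1 hzc h]; simp only [sq]; group
    have h2 : h ^ 2 ^ (a - 1) ∈ zpowers (h ^ 2) := by
      rw [show a - 1 = (a - 2) + 1 by omega, pow_succ' 2 (a - 2), pow_mul]
      exact pow_mem (mem_zpowers _) _
    have h3 : (h * h'⁻¹ * h ^ 2 ^ (a - 1)) ^ 2 = 1 := by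
      rw [Commute.mul_pow (mem_center_iff.1 (hZc h2) _), h1, ← pow_mul, ← pow_succ,
        show a - 1 + 1 = a by omega, ← sq, hz2]
    have h4 := hZH ((mul_mem_cancel_right h2).1 (hinv _ h3))
    exact hh'H (inv_mem_iff.1 ((mul_mem_cancel_left (mem_zpowers h)).1 h4))
  subst ha1
  have hz' : z = h ^ 2 := rfl
  have ho4 : orderOf h = 4 := ha
  have hcen : ∀ x ∈ center G, x = 1 ∨ x = z := fun x hx => huniq x (by
    rw [← orderOf_dvd_iff_pow_eq_one, ← hoz]
    exact orderOf_dvd_of_mem_zpowers (hZ hx))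
  rcases hn with hn | hn <;> rw [hn] at hcard
  · have hout : ∀ y, y ∉ N → y ^ 4 = 1 → y ^ 2 = z := fun y hy h4 =>
      (huniq _ (by rw [← pow_mul, h4])).resolve_left fun h5 =>
        hy (le_normalizer (hZH (hinv y h5)))
    obtain ⟨x, hx⟩ : ∃ x : G, x ^ 4 ≠ 1 := by
      by_contra hcon
      push Not at hcon
      have h1 := hout g hg (hcon _)
      have h2 := hout (g * h) (fun hm => hg ((mul_mem_cancel_right hhN).1 hm)) (hcon _)
      have h3 : (g * h) ^ 2 = h' * g ^ 2 * h := by simp only [sq, hh']; group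
      rw [h3, h1, mem_center_iff.1 hzc h', mul_assoc, mul_eq_left, mul_eq_one_iff_eq_inv] at h2
      exact hh'H (h2 ▸ inv_mem (mem_zpowers h))
    have hx8 : orderOf x = 8 := by
      obtain ⟨d, hd, ho⟩ := exists_order_of_pow_eq_one (x := x) (e := 4) Nat.prime_two
        (by rw [show 2 ^ 4 = Nat.card G from hcard]; exact pow_card_eq_one')
      have h1 : ¬ d ≤ 2 := fun h1 => hx (by
        rw [← orderOf_dvd_iff_pow_eq_one, ho]
        exact pow_dvd_pow 2 h1)
      have h2 : d ≠ 4 := by
        rintro rfl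
        have h3 : zpowers x = ⊤ := eq_top_of_card_eq _ (by rw [Nat.card_zpowers, ho, ← hcard]; rfl)
        exact hnc (commute_of_mem_zpowers (h3 ▸ mem_top h)
          (commute_of_mem_zpowers (h3 ▸ mem_top h') (Commute.refl x)).symm)
      rw [ho, show d = 3 by omega]
      rfl
    have hXi : (zpowers x).index = 2 := by
      have h1 := card_mul_index (zpowers x)
      rw [Nat.card_zpowers, hx8] at h1
      omega
    have hhX : h ∉ zpowers x := fun hm => hnc (commute_of_mem_zpowers hm (commute_of_mem_zpowers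
      ((normal_of_index_eq_two hXi).conj_mem _ hm g) (Commute.refl x)).symm)
    have hx4 : x ^ 4 = z := (huniq _ (by
      rw [← pow_mul, show 4 * 2 = orderOf x from hx8.symm, pow_orderOf_eq_one])).resolve_left hx
    have hy : (x * h) ^ 2 = z := by
      have h1 : zpowers x ≤ centralizer {(x * h) ^ 2} := zpowers_le_of_mem
        (mem_centralizer_singleton_iff.2 (commute_of_mem_zpowers (sq_mem_of_index_two hXi _)
          (Commute.refl x)).symm)
      have h2 := two_mul_index_le h1 fun hh => hhX ((mul_mem_cancel_left (mem_zpowers x)).1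
        (hh (mem_centralizer_singleton_iff.2 ((Commute.refl _).pow_right 2))))
      have h3 : (centralizer {(x * h) ^ 2}).index ≠ 0 := index_ne_zero_of_finite
      have h4 : centralizer {(x * h) ^ 2} = ⊤ := index_eq_one.1 (by omega)
      refine (hcen _ (mem_center_iff.2 fun y =>
        mem_centralizer_singleton_iff.1 (h4 ▸ mem_top y))).resolve_left fun h5 => ?_
      refine hhX ((mul_mem_cancel_left (mem_zpowers x)).1 ?_)
      rcases huniq _ h5 with h6 | h6 <;> rw [h6]
      · exact one_mem _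
      · exact hx4 ▸ pow_mem (mem_zpowers x) 4
    refine iso_Q16 hx8 (hx4 ▸ rfl) ?_ hhX hcard.symm
    rw [hz', sq, sq, ← mul_assoc, mul_left_inj] at hy
    calc h⁻¹ * x * h = h⁻¹ * (x * h * x) * x⁻¹ := by group
      _ = x⁻¹ := by rw [hy]; group
  · exfalso
    have hconj : ∀ y ∈ N, y * h * y⁻¹ = h ∨ y * h * y⁻¹ = h⁻¹ := fun y hy =>
      conj_four ho4 ((mem_normalizer_iff.1 hy h).1 (mem_zpowers h))
    have i1 : (centralizer ({⟨h, hhN⟩} : Set N)).index = 2 :=
      index_centralizer_two (y := ⟨h', hh'N⟩)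
        (fun y => (hconj y y.2).imp Subtype.ext Subtype.ext)
        fun hcm => hnc (congrArg Subtype.val hcm.symm.eq)
    have i2 : (centralizer ({⟨h', hh'N⟩} : Set N)).index = 2 :=
      index_centralizer_two (y := ⟨h, hhN⟩)
        (fun y => by
          have e : (y : G) * h' * (y : G)⁻¹ = g * (g⁻¹ * y * g * h * (g⁻¹ * y * g)⁻¹) * g⁻¹ := by
            rw [hh']; group
          refine (hconj _ (hNn.conj_mem' _ y.2 g)).imp (fun h1 => Subtype.ext ?_)
            (fun h1 => Subtype.ext ?_)
          · change (y : G) * h' * (y : G)⁻¹ = h'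
            rw [e, h1]
          · change (y : G) * h' * (y : G)⁻¹ = h'⁻¹
            rw [e, h1, hh']; group)
        fun hcm => hnc (congrArg Subtype.val hcm.eq)
    set A := centralizer ({⟨h, hhN⟩} : Set N) ⊓ centralizer ({⟨h', hh'N⟩} : Set N) with hA
    have i3 : A.index ≤ 2 * 2 := index_inf_le.trans (by rw [i1, i2])
    have i4 := card_mul_index A
    have i5 := card_mul_index N
    rw [hN, ← hcard] at i5
    have i6 : 2 < Nat.card A := by
      by_contra i6
      have := Nat.mul_le_mul (not_lt.1 i6) i3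
      omega
    obtain ⟨d, hd⟩ : ∃ d : A, ((d : N) : G) ^ 2 ≠ 1 := by
      by_contra hcon
      push Not at hcon
      have := Nat.card_le_card_of_injective
        (fun d : A => (⟨((d : N) : G), hinv _ (hcon d)⟩ : zpowers (h ^ 2)))
        fun d d' hd => Subtype.ext (Subtype.ext (Subtype.mk.inj hd))
      rw [Nat.card_zpowers, ← hz', hoz] at this
      omega
    have d1 : Commute ((d : N) : G) h :=
      congrArg Subtype.val (mem_centralizer_singleton_iff.1 d.2.1)
    have d2 : Commute ((d : N) : G) h' :=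
      congrArg Subtype.val (mem_centralizer_singleton_iff.1 d.2.2)
    generalize ((d : N) : G) = y at hd d1 d2
    obtain ⟨k, -, ho⟩ := exists_order_of_pow_eq_one (x := y) (e := 5) Nat.prime_two
      (by rw [show 2 ^ 5 = Nat.card G from hcard]; exact pow_card_eq_one')
    have hk : 2 ≤ k := by
      by_contra hk
      exact hd (by
        rw [← orderOf_dvd_iff_pow_eq_one, ho]
        exact pow_dvd_pow 2 (show k ≤ 1 by omega))
    have ho' : orderOf (y ^ 2 ^ (k - 2)) = 4 := by
      rw [orderOf_pow_pow Nat.prime_two ho (by omega), show k - (k - 2) = 2 by omega]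
      rfl
    have h1 : (y ^ 2 ^ (k - 2)) ^ 2 = z := (huniq _ (by
      rw [← pow_mul _ 2 2, show 2 * 2 = orderOf _ from ho'.symm, pow_orderOf_eq_one])).resolve_left
        (sq_ne_one_of_order_four ho')
    have h2 : (y ^ 2 ^ (k - 2) * h) ^ 2 = 1 := by
      rw [(d1.pow_left _).mul_pow, h1, ← hz', ← sq, hz2]
    have h3 : Commute (y ^ 2 ^ (k - 2) * h) h' := (mem_center_iff.1 (hZc (hinv _ h2)) h').symm
    exact hnc (by simpa using (d2.pow_left (2 ^ (k - 2))).inv_left.mul_left h3)

end Pool.Agent.Work.MP_7792ce_al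
end

-- merged part: Pool.Agent.Work.MP_7792ce_al.Main
section
/-!
The comparison of the transversal probability with the commuting probability.
-/

namespace Pool.Agent.Work.MP_7792ce_al

open Subgroup

variable {G : Type*} [Group G]

theorem lt_of_mul_sq_lt_one {x n v : ℝ} (hx : 0 ≤ x) (hn : 0 < n) (hv : n ≤ v)
    (h : x * v ^ 2 < 1) : x < 1 / n ^ 2 := by
  rw [lt_div_iff₀ (by positivity)]
  exact (mul_le_mul_of_nonneg_left (pow_le_pow_left₀ hn.le hv 2) hx).trans_lt h

theorem main [Finite G] (hK : ¬ ∀ K : Subgroup G, K.Normal) :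
    tp G < commProb G ∨ Nonempty (G ≃* QuaternionGroup 4) ∨
      ∃ n, 1 ≤ n ∧ Nonempty (G ≃* PresentedGroup (relG n)) := by
  classical
  push Not at hK
  obtain ⟨K, hK⟩ := hK
  obtain ⟨k, -, hk⟩ := exists_zpowers_not_normal hK
  have hex : ∃ n, ∃ h : G, orderOf h = n ∧ ¬ (zpowers h).Normal := ⟨_, k, rfl, hk⟩
  obtain ⟨h, hh, hnn⟩ := Nat.find_spec hex
  have hmin : ∀ x : G, orderOf x < orderOf h → (zpowers x).Normal := fun x hx => by
    by_contra hc
    exact Nat.find_min hex (hh ▸ hx) ⟨x, rfl, hc⟩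
  obtain ⟨p, a, hp, ha⟩ : ∃ p a : ℕ, p.Prime ∧ orderOf h = p ^ (a + 1) := by
    have h1 : h ∉ (zpowers h).normalCore := fun h1 => hnn (by
      rw [le_antisymm (zpowers_le_of_mem h1) (normalCore_le _)]
      infer_instance)
    obtain ⟨g, hg, hg', q, b, hq, ho⟩ := exists_primePow_part _ h h1
    have h2 : orderOf g = orderOf h := by
      by_contra h2
      have := hmin g (lt_of_le_of_ne
        (Nat.le_of_dvd (orderOf_pos h) (orderOf_dvd_of_mem_zpowers hg)) h2)
      exact hg' (normal_le_normalCore.2 (zpowers_le_of_mem hg) (mem_zpowers g))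
    cases b with
    | zero =>
      rw [pow_zero, orderOf_eq_one_iff] at ho
      exact absurd (ho ▸ one_mem _) hg'
    | succ b => exact ⟨q, b, hq, h2 ▸ ho⟩
  rw [ha] at hmin
  obtain ⟨s, hs1, hs2⟩ := transProb_cyclic h hp ha (hmin _ (by
    rw [show orderOf (h ^ p) = p ^ a by simpa using orderOf_pow_pow (i := 1) hp ha (by omega)]
    exact Nat.pow_lt_pow_right hp.one_lt (by omega)))
  have htp := tp_le (zpowers h)
  rw [hs1] at htp
  set N := normalizer (zpowers h : Set G) with hN
  have hcard := card_mul_index (zpowers h)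
  rw [Nat.card_zpowers, ha] at hcard
  have hc1 : N.index ≠ 1 := fun h4 => hnn (normalizer_eq_top_iff.1 (index_eq_one.1 h4))
  have hc0 : N.index ≠ 0 := index_ne_zero_of_finite
  have hm0 : (zpowers h).relIndex N ≠ 0 := index_ne_zero_of_finite
  have hmc : (zpowers h).relIndex N * N.index = (zpowers h).index :=
    relIndex_mul_index le_normalizer
  have hZi := index_zpowers_pow hp ha
  have hcp := cp_ge_cyclic h
  obtain ⟨c, hc⟩ : ∃ c, N.index = c + 2 := ⟨N.index - 2, by omega⟩
  obtain ⟨m, hm⟩ : ∃ m, (zpowers h).relIndex N = m + 1 := ⟨(zpowers h).relIndex N - 1, by omega⟩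
  obtain ⟨n, hn⟩ : ∃ n, (zpowers h).index = n := ⟨_, rfl⟩
  rw [hc, hm, hn] at hmc
  rw [hn] at hcard hZi hcp
  have hns : n = m + 1 + p * s := by
    have h1 := card_mul_index N
    rw [hc, ← hcard, ← hmc, ← mul_assoc] at h1
    rw [Nat.eq_of_mul_eq_mul_right (by omega) h1, ← hcard] at hs2
    refine Nat.eq_of_mul_eq_mul_left (pow_pos hp.pos (a + 1)) (hs2.trans (by ring))
  have hps : p * s = (m + 1) * (c + 1) := by nlinarith only [hmc, hns]
  have hs0 : 1 ≤ s := by
    rcases Nat.eq_zero_or_pos s with rfl | h1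
    · simp at hps
    · exact h1
  have hn2 : n ≤ 2 * p * s := by nlinarith only [hmc, hns]
  have hn2' : (n : ℝ) ≤ 2 * p * s := by exact_mod_cast hn2
  have hn0 : (0 : ℝ) < n := by exact_mod_cast (by omega : 0 < n)
  have hs0' : (1 : ℝ) ≤ s := by exact_mod_cast hs0
  have hp235 : p = 2 ∨ p = 3 ∨ 5 ≤ p := by
    have h2 := hp.two_le
    have h4 : p ≠ 4 := by rintro rfl; norm_num at hp
    omega
  rcases central_or_coprime hp ha hmin with hcen | ⟨hp2, ha1, q, b, hq, hqp, hlt, hdvd⟩
  · have hZ : zpowers (h ^ p) ≤ center G := zpowers_le_of_mem hcen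
    have B1 : ∀ v : ℝ, 2 ≤ v → ((p * n : ℕ) : ℝ) ≤ v → phi v ≤ commProb G := fun v h1 h2 =>
      cp_ge _ hZ h1 (hZi ▸ h2)
    have B2 : ¬ center G ≤ zpowers (h ^ p) → ∀ v : ℝ, 2 ≤ v → ((p * n : ℕ) : ℝ) ≤ 2 * v →
        phi v ≤ commProb G := fun h0 v h1 h2 => cp_ge _ le_rfl h1 (by
      have h3 := two_mul_index_le hZ h0
      rw [hZi] at h3
      have h4 : 2 * ((center G).index : ℝ) ≤ ((p * n : ℕ) : ℝ) := by exact_mod_cast h3
      linarith only [h2, h4])
    rcases hp235 with rfl | rfl | hp5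
    · by_cases h4 : 4 ≤ s
      · exact Or.inl (htp.trans_lt ((num_two h4).trans_le (B1 _ (by linarith only [hs0'])
          (by push_cast at hn2' ⊢; linarith only [hn2']))))
      rw [ff_two] at htp
      have hB : ∀ v : ℕ, n = v → (v = 4 ∨ v = 8) → c = 0 → (1 / 2 : ℝ) ^ s < phi v →
          tp G < commProb G ∨ Nonempty (G ≃* QuaternionGroup 4) ∨
            ∃ n, 1 ≤ n ∧ Nonempty (G ≃* PresentedGroup (relG n)) := fun v h1 h2 h3 h5 => by
        by_cases h6 : center G ≤ zpowers (h ^ 2)
        · exact Or.inr (Or.inl (case_two ha hmin hcen (by omega) (by rw [← hN]; omega) h6))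
        · refine Or.inl (htp.trans_lt (h5.trans_le (B2 h6 v ?_ (by rw [h1]; push_cast; rfl))))
          exact_mod_cast (by omega : 2 ≤ v)
      have hm6 : m ≤ 5 := by nlinarith only [hns, hn2, h4]
      have hc6 : c ≤ 5 := by nlinarith only [hmc, hns, h4]
      have hs3 : s ≤ 3 := by omega
      interval_cases s
      · have : m = 0 ∧ n = 3 ∨ c = 0 ∧ n = 4 := by
          interval_cases m <;> omega
        rcases this with ⟨-, h5⟩ | ⟨h5, h6⟩
        · exact Or.inr (Or.inr ⟨a + 1, by omega, case_Gn ha hcen (hn.trans h5) hnn⟩)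
        · exact hB 4 h6 (Or.inl rfl) h5 (by norm_num [phi])
      · have : n = 5 ∨ n = 6 ∨ c = 0 ∧ n = 8 := by
          interval_cases m <;> omega
        rcases this with h5 | h5 | ⟨h5, h6⟩
        · refine Or.inl (htp.trans_lt (lt_of_lt_of_le ?_ (B1 10 (by norm_num)
            (by rw [h5]; norm_num))))
          norm_num [phi]
        · exact Or.inl (case_three ha hcen (Or.inl ⟨hn.trans h5, htp.trans (by norm_num)⟩))
        · exact hB 8 h6 (Or.inr rfl) h5 (by norm_num [phi])
      · have : n ≤ 9 ∨ n = 12 := by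
          interval_cases m <;> omega
        rcases this with h5 | h5
        · refine Or.inl (htp.trans_lt (lt_of_lt_of_le ?_ (B1 18 (by norm_num)
            (by exact_mod_cast (by omega : 2 * n ≤ 18)))))
          norm_num [phi]
        · exact Or.inl (case_three ha hcen (Or.inr ⟨hn.trans h5, htp.trans (by norm_num)⟩))
    · left
      by_cases h2 : 2 ≤ s
      · exact htp.trans_lt ((num_three h2).trans_le (B1 _ (by linarith only [hs0'])
          (by push_cast at hn2' ⊢; linarith only [hn2'])))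
      obtain rfl : s = 1 := by omega
      rw [ff_three] at htp
      have hm6 : m ≤ 2 := by nlinarith only [hns, hn2]
      have : n = 4 ∨ n = 6 := by
        interval_cases m <;> omega
      rcases this with h5 | h5
      · refine htp.trans_lt (lt_of_lt_of_le ?_ (B1 12 (by norm_num) (by rw [h5]; norm_num)))
        norm_num [phi]
      · have : Fact (Nat.Prime 2) := ⟨Nat.prime_two⟩
        obtain ⟨t, ht⟩ := exists_prime_orderOf_dvd_card' (G := G) 2 (by
          rw [← hcard, h5]; exact Dvd.dvd.mul_left (by norm_num) _)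
        have h6 : t ∈ center G := central_of_order_le_two (hmin t (by
          rw [ht]
          exact lt_of_lt_of_le (by norm_num) (Nat.le_self_pow (by omega) 3)))
          (ht ▸ pow_orderOf_eq_one t)
        refine htp.trans_lt (lt_of_lt_of_le ?_ (B2 (fun hh => not_mem_zpowers_of_order
          Nat.prime_three Nat.prime_two (by norm_num) ha ht
          (zpowers_le_of_mem (pow_mem (mem_zpowers h) 3) (hh h6))) 9 (by norm_num)
          (by rw [h5]; norm_num)))
        norm_num [phi]
    · have hp' : (5 : ℝ) ≤ p := by exact_mod_cast hp5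
      exact Or.inl (htp.trans_lt ((num_five hp5 hs0).trans_le (B1 _ (by nlinarith only [hp', hs0'])
        (by push_cast; nlinarith only [hn2']))))
  · left
    rw [hn] at hdvd
    have hle := Nat.le_of_dvd (by omega) hdvd
    have hpp : p * p ≤ p ^ (a + 1) := by
      rw [← sq]; exact Nat.pow_le_pow_right hp.pos (by omega)
    refine htp.trans_lt (lt_of_lt_of_le ?_ hcp)
    rcases hp235 with rfl | rfl | hp5
    · exact absurd rfl hp2
    · by_cases h5 : 5 ≤ s
      · exact lt_of_mul_sq_lt_one (pow_nonneg (ff_nonneg _) _) hn0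
          (by push_cast at hn2'; linarith only [hn2']) (num_three' h5)
      have h3 : ¬ 3 ∣ q ^ b := fun h3 =>
        hqp ((Nat.prime_dvd_prime_iff_eq Nat.prime_three hq).1
          (Nat.prime_three.dvd_of_dvd_pow h3)).symm
      have h10 : ¬ 10 ∣ q ^ b := fun h10 => by
        have e1 := (Nat.prime_dvd_prime_iff_eq Nat.prime_two hq).1
          (Nat.prime_two.dvd_of_dvd_pow (Dvd.dvd.trans (by norm_num) h10))
        have e2 := (Nat.prime_dvd_prime_iff_eq Nat.prime_five hq).1
          (Nat.prime_five.dvd_of_dvd_pow (Dvd.dvd.trans (by norm_num) h10))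
        omega
      generalize q ^ b = r at hlt hdvd hle h3 h10
      have hm6 : m ≤ 11 := by nlinarith only [hns, hn2, h5]
      have hs4 : s ≤ 4 := by omega
      have hr : r ≤ 24 := by omega
      have hr' : 10 ≤ r := by omega
      have key : s = 4 ∧ n ≤ 16 := by
        obtain ⟨u, hu⟩ := hdvd
        have hu2 : u ≤ 2 := by nlinarith only [hn2, hpp, h5, hlt, hu]
        interval_cases s <;> interval_cases m <;> interval_cases u <;> omega
      obtain ⟨rfl, h16⟩ := key
      refine lt_of_mul_sq_lt_one (v := 16) (pow_nonneg (ff_nonneg _) _) hn0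
        (by exact_mod_cast h16) ?_
      rw [ff_three]
      norm_num
    · refine lt_of_mul_sq_lt_one (pow_nonneg (ff_nonneg _) _) hn0 hn2' (num_five' hp5 ?_)
      by_contra h2
      obtain rfl : s = 1 := by omega
      nlinarith only [hZi, hp5, hn2, ha, hlt, hle, hpp]

theorem cp_dedekind [Finite G] (h : ∀ K : Subgroup G, K.Normal)
    (hna : ¬ ∀ a b : G, a * b = b * a) : (commProb G : ℝ) = 5 / 8 :=
  cp_of_index_four (index_center_of_dedekind (fun _ => h _) hna)

theorem values_Q16 [Finite G] (e : G ≃* QuaternionGroup 4) :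
    tp G = 1 / 2 ∧ (commProb G : ℝ) = 7 / 16 :=
  ⟨(tp_congr e).trans tp_Q16, by rw [commProb_congr e, cp_Q16]⟩

theorem values_comm [Finite G] (h : ∀ a b : G, a * b = b * a) :
    tp G = 1 ∧ (commProb G : ℝ) = 1 :=
  ⟨tp_dedekind fun _ => normal_of_le_center fun x _ => mem_center_iff.2 fun g => h g x, by
    rw [commProb_eq_one_iff.2 ⟨⟨h⟩⟩]; norm_num⟩

end Pool.Agent.Work.MP_7792ce_al
end
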