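import Pool.Agent.Work.MP_7792ce_al.Dedekind
import Pool.Agent.Work.MP_7792ce_al.Count

/-!
The exceptional groups.
-/

namespace Pool.Agent.Work.MP_7792ce_al

open Subgroup

variable {G : Type*} [Group G]

theorem isComplement_preimage {G' : Type*} [Group G'] (e : G ≃* G') {S T : Set G'}
    (h : IsComplement S T) : IsComplement (e ⁻¹' S) (e ⁻¹' T) := by
  rw [isComplement_iff_existsUnique_inv_mul_mem] at h ⊢
  intro g
  obtain ⟨s, h1, h2⟩ := h (e g)
  refine ⟨⟨e.symm s, by simp⟩, by simpa using h1, fun y hy => ?_⟩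
  have := h2 ⟨e y, y.2⟩ (by simpa using hy)
  ext
  simp [← this]

theorem transProb_comap {G' : Type*} [Group G'] (e : G ≃* G') (H : Subgroup G') :
    transProb (H.comap e.toMonoidHom) = transProb H := by
  have h1 : Nat.card (H.comap e.toMonoidHom) = Nat.card H :=
    Nat.card_congr (Equiv.subtypeEquiv e.toEquiv fun _ => Iff.rfl)
  have h2 : (H.comap e.toMonoidHom).index = H.index := index_comap_of_surjective _ e.surjective
  have h3 : e.symm ⁻¹' (H.comap e.toMonoidHom : Set G) = H := by ext; simp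
  have h4 : Nat.card (twoSided (H.comap e.toMonoidHom)) = Nat.card (twoSided H) :=
    Nat.card_congr
      { toFun := fun S => ⟨e.symm ⁻¹' S.1, h3 ▸ isComplement_preimage e.symm S.2.1,
          h3 ▸ isComplement_preimage e.symm S.2.2⟩
        invFun := fun S => ⟨e ⁻¹' S.1, isComplement_preimage e S.2.1, isComplement_preimage e S.2.2⟩
        left_inv := fun S => by ext; simp
        right_inv := fun S => by ext; simp }
  rw [transProb, transProb, h1, h2, h4]

theorem tp_congr {G' : Type*} [Group G'] [Finite G] (e : G ≃* G') : tp G = tp G' := by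
  have := Finite.of_equiv G e.toEquiv
  refine le_antisymm (le_tp fun H => ?_) (le_tp fun H => ?_)
  · rw [← transProb_comap e]; exact tp_le _
  · rw [← transProb_comap e.symm]; exact tp_le _

theorem normal_of_card_normalizer [Finite G] {H : Subgroup G}
    (h : Nat.card G = Nat.card (normalizer (H : Set G))) : H.Normal :=
  normalizer_eq_top_iff.1 (eq_top_of_card_eq _ h.symm)

theorem transProb_half [Finite G] {h : G} {a : ℕ} (ha : orderOf h = 2 ^ (a + 1))
    (hn : (zpowers (h ^ 2)).Normal) (hnn : ¬ (zpowers h).Normal) (hi : (zpowers h).index ≤ 4) :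
    transProb (zpowers h) = 1 / 2 := by
  obtain ⟨s, h1, h2⟩ := transProb_cyclic h Nat.prime_two ha hn
  have h3 : s ≠ 0 := by
    rintro rfl
    exact hnn (normal_of_card_normalizer (by simpa using h2))
  have h4 := card_mul_index (zpowers h)
  rw [Nat.card_zpowers, ha] at h4
  have h5 : 0 < Nat.card (normalizer (zpowers h : Set G)) := Nat.card_pos
  have h6 : 2 ^ (a + 1) * (zpowers h).index ≤ 2 ^ (a + 1) * 4 := Nat.mul_le_mul_left _ hi
  have h7 : s < 2 := by
    by_contra h7
    have : 2 * 2 * 2 ^ (a + 1) ≤ 2 * s * 2 ^ (a + 1) :=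
      Nat.mul_le_mul_right _ (Nat.mul_le_mul_left _ (by omega))
    omega
  have : s = 1 := by omega
  rw [h1, this, ff]
  norm_num [Nat.factorial]

theorem tp_eq_half [Finite G] (hK : ∀ K : Subgroup G, ¬ K.Normal → transProb K = 1 / 2)
    (K : Subgroup G) (h : ¬ K.Normal) : tp G = 1 / 2 := by
  refine le_antisymm ((tp_le K).trans (hK K h).le) (le_tp fun H => ?_)
  by_cases hH : H.Normal
  · rw [transProb_normal H hH]; norm_num
  · exact (hK H hH).ge

theorem tp_dedekind [Finite G] (hK : ∀ K : Subgroup G, K.Normal) : tp G = 1 :=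
  le_antisymm ((tp_le ⊤).trans (transProb_normal _ (hK _)).le)
    (le_tp fun H => (transProb_normal _ (hK H)).ge)

theorem exists_zpowers_not_normal {K : Subgroup G} (h : ¬ K.Normal) :
    ∃ k ∈ K, ¬ (zpowers k).Normal := by
  by_contra hc
  push Not at hc
  exact h ⟨fun k hk g => zpowers_le_of_mem hk ((hc k hk).conj_mem k (mem_zpowers k) g)⟩

theorem normal_zpowers_of_conj {k : G} (h : ∀ g : G, g * k * g⁻¹ ∈ zpowers k) :
    (zpowers k).Normal := ⟨by
  rintro _ ⟨j, rfl⟩ g
  simp only [← conj_zpow]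
  exact zpow_mem (h g) j⟩

theorem normal_of_le_center {K : Subgroup G} (h : K ≤ center G) : K.Normal :=
  ⟨fun k hk g => by rw [mem_center_iff.1 (h hk) g]; simpa using hk⟩

section Q16

open QuaternionGroup

theorem cp_Q16 : (commProb (QuaternionGroup 4) : ℝ) = 7 / 16 := by
  have h1 : Nat.card {p : QuaternionGroup 4 × QuaternionGroup 4 // Commute p.1 p.2} = 112 := by
    have : Fintype.card {p : QuaternionGroup 4 × QuaternionGroup 4 // p.1 * p.2 = p.2 * p.1} =
      112 := by decide +kernel
    rw [← this, ← Nat.card_eq_fintype_card]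
    rfl
  rw [commProb_def, h1, Nat.card_eq_fintype_card, QuaternionGroup.card]
  norm_num

theorem tp_Q16 : tp (QuaternionGroup 4) = 1 / 2 := by
  have F1 : ∀ (i : ZMod (2 * 4)) (g : QuaternionGroup 4),
      g * a i * g⁻¹ = a i ∨ g * a i * g⁻¹ = (a i)⁻¹ := by decide +kernel
  have F2 : ∀ (i : ZMod (2 * 4)) (k : QuaternionGroup 4), (∃ n : Fin 4, k = xa i ^ n.val) ∨
      ∃ n : Fin 8, k ^ n.val = a 2 ∨ (xa i * k) ^ n.val = a 2 := by decide +kernel
  have F3 : ∀ g k : QuaternionGroup 4, ∃ n : Fin 4, g * k * g⁻¹ = a 2 ^ n.val * k := by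
    decide +kernel
  have F4 : ∀ (i : ZMod (2 * 4)) (g : QuaternionGroup 4), g * xa i ^ 2 = xa i ^ 2 * g := by
    decide +kernel
  have F5 : ∀ n : Fin 4, (a 1 : QuaternionGroup 4) * xa 0 * (a 1)⁻¹ ≠ xa 0 ^ n.val := by
    decide +kernel
  refine tp_eq_half (fun K hK => ?_) (zpowers (xa 0)) fun h => ?_
  · obtain ⟨k, hk, hn⟩ := exists_zpowers_not_normal hK
    cases k with
    | a i =>
      refine absurd (normal_zpowers_of_conj fun g => ?_) hn
      rcases F1 i g with h | h <;> rw [h]
      · exact mem_zpowers _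
      · exact inv_mem (mem_zpowers _)
    | xa i =>
      have h2 : a 2 ∉ K := fun h2 => hK ⟨fun k hk g => by
        obtain ⟨n, hn⟩ := F3 g k
        rw [hn]
        exact mul_mem (pow_mem h2 _) hk⟩
      have h3 : K = zpowers (xa i) := by
        refine le_antisymm (fun k' hk' => ?_) (zpowers_le_of_mem hk)
        rcases F2 i k' with ⟨n, hn⟩ | ⟨n, hn | hn⟩
        · rw [hn]; exact pow_mem (mem_zpowers _) _
        · exact absurd (hn ▸ pow_mem hk' _) h2
        · exact absurd (hn ▸ pow_mem (mul_mem hk hk') _) h2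
      rw [h3]
      refine transProb_half (a := 1) (orderOf_xa i) (normal_of_le_center
        (zpowers_le_of_mem (mem_center_iff.2 (F4 i)))) hn ?_
      have := card_mul_index (zpowers (xa i : QuaternionGroup 4))
      rw [Nat.card_zpowers, orderOf_xa, Nat.card_eq_fintype_card, QuaternionGroup.card] at this
      omega
  · obtain ⟨k, hk⟩ := mem_powers_iff_mem_zpowers.2 (h.conj_mem _ (mem_zpowers _) (a 1))
    simp only at hk
    rw [← pow_mod_orderOf, orderOf_xa] at hk
    exact F5 ⟨k % 4, Nat.mod_lt _ (by norm_num)⟩ hk.symm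

theorem iso_Q16 [Finite G] {x y : G} (hx : orderOf x = 8) (hy : y ^ 2 = x ^ 4)
    (hxy : y⁻¹ * x * y = x⁻¹) (hyx : y ∉ zpowers x) (hc : Nat.card G = 16) :
    Nonempty (G ≃* QuaternionGroup 4) := by
  let f : ZMod (2 * 4) → G := fun i => x ^ i.val
  have f1 : ∀ i j, f (i + j) = f i * f j := fun i j => by
    simp only [f]
    have := pow_mod_orderOf x (i.val + j.val)
    rw [hx] at this
    rw [ZMod.val_add, ← pow_add]
    exact this
  have f0 : f 0 = 1 := by simp [f]
  have f2 : ∀ i j, f (j - i) = (f i)⁻¹ * f j := fun i j => by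
    rw [eq_inv_mul_iff_mul_eq, ← f1, add_sub_cancel]
  have f3 : ∀ i, f i * y = y * (f i)⁻¹ := fun i => by
    have : y⁻¹ * x * y⁻¹⁻¹ = x⁻¹ := by rw [inv_inv, hxy]
    have h2 : (y⁻¹ * x * y⁻¹⁻¹) ^ i.val = (x ^ i.val)⁻¹ := by rw [this, inv_pow]
    rw [conj_pow] at h2
    simp only [f]
    rw [← h2]
    group
  have f4 : f ((4 : ℕ) : ZMod (2 * 4)) = y * y := by rw [← sq, hy]; rfl
  let φ : QuaternionGroup 4 →* G := MonoidHom.mk' (fun q => match q with
    | a i => f i
    | xa i => y * f i) (by
      rintro (i | i) (j | j)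
      · exact f1 i j
      · change y * f (j - i) = f i * (y * f j)
        rw [f2, ← mul_assoc, ← mul_assoc, f3]
      · change y * f (i + j) = y * f i * f j
        rw [f1, mul_assoc]
      · change f ((4 : ℕ) + j - i) = y * f i * (y * f j)
        rw [add_sub_assoc, f1, f2, f4, mul_assoc y (f i), ← mul_assoc (f i), f3]
        simp only [mul_assoc])
  have hsurj : Function.Surjective φ := by
    rw [← MonoidHom.range_eq_top, ← index_eq_one]
    have h1 : zpowers x ≤ φ.range := zpowers_le_of_mem ⟨a 1, pow_one x⟩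
    have h2 := two_mul_index_le h1 fun h => hyx (h ⟨xa 0, by
      change y * f 0 = y
      rw [f0, mul_one]⟩)
    have h3 := card_mul_index (zpowers x)
    rw [Nat.card_zpowers, hx, hc] at h3
    have h4 : φ.range.index ≠ 0 := index_ne_zero_of_finite
    omega
  exact ⟨(MulEquiv.ofBijective φ (hsurj.bijective_of_nat_card_le (by
    rw [hc, Nat.card_eq_fintype_card, QuaternionGroup.card]))).symm⟩

end Q16

end Pool.Agent.Work.MP_7792ce_al
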